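import Pool.Agent.R485.RG.Cant

set_option autoImplicit false

/-! Cantor sets of parameters for which all members of a sequence of functions are near centres. -/

namespace Pool.Agent.R485.RG

open Set Filter Topology MeasureTheory

/-- left end points -/
noncomputable def lft (p : ℝ) (e : ℕ → ℕ) (ch : ℕ → ℝ → ℕ → ℝ) : ℕ → ℕ → ℝ
  | 0 => fun _ => p
  | k + 1 => fun j => ch k (lft p e ch k (j / 2^(e k))) (j % 2^(e k))

theorem allk {p q : ℝ} (hpq : p < q) (f : ℕ → ℝ → ℝ) (a b H T : ℕ → ℝ) (Cen : ℕ → ℝ → Prop)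
    (ha : ∀ k, 0 < a k) (hab : ∀ k, a k ≤ b k) (hT : ∀ k, 0 < T k) (hTH : ∀ k, T k ≤ H k)
    (hf : ∀ k, ContinuousOn (f k) (Icc p q))
    (hs : ∀ k, ∀ x ∈ Icc p q, ∀ y ∈ Icc p q, x ≤ y →
      a k * (y - x) ≤ f k y - f k x ∧ f k y - f k x ≤ b k * (y - x))
    (hcen : ∀ k z, f k p ≤ z → z ≤ f k q → ∃ m, z ≤ m ∧ m ≤ z + H k ∧ Cen k m)
    (l : ℕ → ℝ) (hl0 : l 0 = q - p) (hl : ∀ k, l (k + 1) = T k / b k)
    (e : ℕ → ℕ) (he : ∀ k, 1 ≤ e k) (hcell : ∀ k, 2^(e k) * (4 * (H k / a k)) ≤ l k)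
    {t C : ℝ} (ht0 : 0 < t) (ht1 : t ≤ 1) (hC : 0 < C)
    (hcond : ∀ k, 2 ≤ C * 2^(ES e k) * (l k / 2) ^ t) :
    ENNReal.ofReal t ≤ dimH {x | x ∈ Icc p q ∧ ∀ k, ∃ m, Cen k m ∧ |f k x - m| ≤ T k} := by
  have hb : ∀ k, 0 < b k := fun k => (ha k).trans_le (hab k)
  have hH : ∀ k, 0 < H k := fun k => (hT k).trans_le (hTH k)
  have hlp : ∀ k, 0 < l k := by
    intro k
    refine lt_of_lt_of_le ?_ (hcell k)
    have := ha k
    have := hH k
    positivity
  set lam : ℕ → ℝ := fun k => l k / 2^(e k) with hlam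
  have hlamp : ∀ k, 0 < lam k := fun k => by
    have := hlp k
    simp only [hlam]
    positivity
  have hlam1 : ∀ k, 4 * (H k / a k) ≤ lam k := by
    intro k
    simp only [hlam]
    rw [le_div_iff₀ (by positivity)]
    linarith [hcell k]
  have hlam2 : ∀ k, (2^(e k) : ℝ) * lam k = l k := by
    intro k
    simp only [hlam]
    field_simp
  have hTb : ∀ k, T k / b k ≤ lam k / 4 := by
    intro k
    have h1 : T k / b k ≤ H k / a k := div_le_div₀ (hH k).le (hTH k) (ha k) (hab k)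
    have := hlam1 k
    linarith
  have hil : ∀ k (i : ℕ), i < 2^(e k) → ((i : ℝ) + 1) * lam k ≤ l k := by
    intro k i hi
    rw [← hlam2 k]
    apply mul_le_mul_of_nonneg_right _ (hlamp k).le
    exact_mod_cast hi
  have hchild : ∀ k, ∀ A : ℝ, p ≤ A → A + l k ≤ q → ∀ i : ℕ, i < 2^(e k) →
      ∃ c, A + (i + 1/4) * lam k ≤ c ∧ c ≤ A + (i + 1/2) * lam k ∧ Cen k (f k c) := by
    intro k A hA hAq i hi
    have h1 := hil k i hi
    have h2 := hlamp k
    have hi0 : (0:ℝ) ≤ i := Nat.cast_nonneg _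
    have h3 : 0 ≤ (i + 1/4 : ℝ) * lam k := by positivity
    have hx0 : A + (i + 1/4) * lam k ∈ Icc p q := ⟨by linarith, by nlinarith⟩
    have hx1 : A + (i + 1/2) * lam k ∈ Icc p q := ⟨by nlinarith, by nlinarith⟩
    have hp : p ∈ Icc p q := ⟨le_rfl, hpq.le⟩
    have hq : q ∈ Icc p q := ⟨hpq.le, le_rfl⟩
    have hxx : A + (i + 1/4) * lam k ≤ A + (i + 1/2) * lam k := by nlinarith
    have s1 := (hs k _ hp _ hx0 hx0.1).1
    have s2 := (hs k _ hx0 _ hq hx0.2).1
    have s3 := (hs k _ hx0 _ hx1 hxx).1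
    have g1 : 0 ≤ a k * (A + (i + 1/4) * lam k - p) := mul_nonneg (ha k).le (by linarith [hx0.1])
    have g2 : 0 ≤ a k * (q - (A + (i + 1/4) * lam k)) := mul_nonneg (ha k).le (by linarith [hx0.2])
    obtain ⟨m, hm1, hm2, hm3⟩ := hcen k _ (by linarith : f k p ≤ f k (A + (i + 1/4) * lam k))
      (by linarith)
    have h4 : H k ≤ a k * (lam k / 4) := by
      have h5 := hlam1 k
      have h6 : H k / a k ≤ lam k / 4 := by linarith
      rw [div_le_iff₀ (ha k)] at h6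
      linarith
    have e1 : A + (i + 1/2) * lam k - (A + (i + 1/4) * lam k) = lam k / 4 := by ring
    rw [e1] at s3
    obtain ⟨c, hc, hfc⟩ := intermediate_value_Icc hxx
      ((hf k).mono (Icc_subset_Icc hx0.1 hx1.2)) ⟨hm1, by linarith⟩
    exact ⟨c, hc.1, hc.2, by rw [hfc]; exact hm3⟩
  choose! ch hch using hchild
  set L := lft p e ch with hL
  have hL0 : ∀ j, L 0 j = p := fun j => rfl
  have hLs : ∀ k j, L (k+1) j = ch k (L k (j / 2^(e k))) (j % 2^(e k)) := fun k j => rfl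
  have hmod : ∀ k j, j % 2^(e k) < 2^(e k) := fun k j => Nat.mod_lt _ (by positivity)
  have hinv : ∀ k j, p ≤ L k j ∧ L k j + l k ≤ q := by
    intro k
    induction k with
    | zero =>
      intro j
      rw [hL0, hl0]
      exact ⟨le_rfl, by linarith⟩
    | succ k ih =>
      intro j
      rw [hLs, hl]
      obtain ⟨h1, h2⟩ := ih (j / 2^(e k))
      obtain ⟨c1, c2, -⟩ := hch k _ h1 h2 _ (hmod k j)
      have h3 := hil k _ (hmod k j)
      have h4 := hTb k
      have h5 := hlamp k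
      have h6 : (0:ℝ) ≤ ((j % 2^(e k) : ℕ) : ℝ) := Nat.cast_nonneg _
      constructor
      · nlinarith
      · nlinarith
  have hidx : ∀ k j i : ℕ, i < 2^(e k) → (2^(e k) * j + i) / 2^(e k) = j ∧
      (2^(e k) * j + i) % 2^(e k) = i := by
    intro k j i hi
    constructor
    · rw [Nat.mul_add_div (by positivity), Nat.div_eq_of_lt hi, add_zero]
    · rw [Nat.mul_add_mod, Nat.mod_eq_of_lt hi]
  have hLch : ∀ k j i : ℕ, i < 2^(e k) → L (k+1) (2^(e k) * j + i) = ch k (L k j) i := by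
    intro k j i hi
    rw [hLs, (hidx k j i hi).1, (hidx k j i hi).2]
  have hES : ∀ M : ℕ, ∃ k, M ≤ ES e k := by
    intro M
    refine ⟨M, ?_⟩
    unfold ES
    calc M = ∑ _i ∈ Finset.range M, 1 := by simp
      _ ≤ _ := Finset.sum_le_sum fun i _ => he i
  have key := cantor_dim hES (fun k j => Icc (L k j) (L k j + l k))
    (fun k j _ => ⟨isCompact_Icc, nonempty_Icc.2 (by linarith [hlp k])⟩) ?_
    (fun k => lam k / 2) (fun k => by have := hlamp k; linarith) ?_ ht0 ht1 hC ?_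
  · refine key.trans (dimH_mono ?_)
    intro x hx
    refine ⟨?_, fun k => ?_⟩
    · obtain ⟨j, -, hj⟩ := hx 0
      rw [hL0, hl0] at hj
      exact ⟨hj.1, by linarith [hj.2]⟩
    · obtain ⟨j, -, hj⟩ := hx (k+1)
      obtain ⟨h1, h2⟩ := hinv k (j / 2^(e k))
      obtain ⟨c1, c2, c3⟩ := hch k _ h1 h2 _ (hmod k j)
      refine ⟨f k (L (k+1) j), by rw [hLs]; exact c3, ?_⟩
      obtain ⟨i1, i2⟩ := hinv (k+1) j
      have hxl : l (k+1) = T k / b k := hl k
      have hc : L (k+1) j ∈ Icc p q := ⟨i1, by linarith [hlp (k+1)]⟩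
      have hxm : x ∈ Icc p q := ⟨i1.trans hj.1, hj.2.trans i2⟩
      obtain ⟨s1, s2⟩ := hs k _ hc _ hxm hj.1
      have s3 : 0 ≤ a k * (x - L (k+1) j) := mul_nonneg (ha k).le (by linarith [hj.1])
      rw [abs_of_nonneg (by linarith)]
      refine s2.trans ?_
      have s4 : x - L (k+1) j ≤ T k / b k := by
        rw [← hxl]
        linarith [hj.2]
      rw [le_div_iff₀ (hb k)] at s4
      linarith
  · intro k j i _ hi
    obtain ⟨h1, h2⟩ := hinv k j
    obtain ⟨c1, c2, -⟩ := hch k _ h1 h2 i hi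
    have h3 := hil k i hi
    have h4 := hTb k
    have h5 := hlamp k
    have h6 : (0:ℝ) ≤ (i : ℝ) := Nat.cast_nonneg _
    rw [hLch k j i hi, hl]
    apply Icc_subset_Icc
    · nlinarith
    · nlinarith
  · intro k j i i' _ hii hi' x hx y hy
    obtain ⟨h1, h2⟩ := hinv k j
    obtain ⟨c1, c2, -⟩ := hch k _ h1 h2 i (hii.trans hi')
    obtain ⟨d1, d2, -⟩ := hch k _ h1 h2 i' hi'
    have h4 := hTb k
    have h5 := hlamp k
    rw [hLch k j i (hii.trans hi'), hl] at hx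
    rw [hLch k j i' hi'] at hy
    have h7 : ((i : ℝ) + 1) ≤ i' := by exact_mod_cast hii
    have h8 := hx.2
    have h9 := hy.1
    nlinarith
  · intro k
    have e1 : (2^(e k) : ℝ) * (lam k / 2) = l k / 2 := by
      rw [← hlam2 k]
      ring
    rw [e1]
    exact hcond k

end Pool.Agent.R485.RG
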