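import Pool.Agent.R485.RG.FF
import Pool.Agent.Results.MP_3bc45c_nt.RecordGapsAtPrescribedPlaces

set_option autoImplicit false

/-! Record gaps in every interval. -/

namespace Pool.Agent.R485.RG

open Filter Topology Real

/-- record gaps in every interval -/
theorem base : ∃ c : ℝ, 0 < c ∧ ∃ x₀ : ℝ, ∀ x : ℝ, x₀ ≤ x → ∀ z : ℝ, 0 ≤ z →
    ∃ m : ℝ, z ≤ m ∧ m ≤ z + x ∧ Free (c * F x) m := by
  obtain ⟨c, hc, x₀, h⟩ :=
    Pool.Agent.Results.MP_3bc45c_nt.RecordGapsAtPrescribedPlaces.result (1 / 2) 0 (by norm_num)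
      (by norm_num) le_rfl
  refine ⟨c, hc, max x₀ 1, fun x hx z hz => ?_⟩
  have hx1 : 1 ≤ x := (le_max_right _ _).trans hx
  obtain ⟨n, -, h1, h2, h3⟩ := h x ((le_max_left _ _).trans hx) 1 le_rfl (by
      rw [Nat.cast_one]
      exact Real.one_le_rpow hx1 (by norm_num)) (by simp) 0 ⌊z⌋₊
  refine ⟨(n : ℝ), ?_, ?_, ?_⟩
  · have e1 : z < ⌊z⌋₊ + 1 := Nat.lt_floor_add_one z
    have e2 : ((⌊z⌋₊ + 1 : ℕ) : ℝ) ≤ n := by exact_mod_cast h1
    push_cast at e2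
    linarith
  · have e1 : (⌊z⌋₊ : ℝ) ≤ z := Nat.floor_le hz
    linarith
  · intro p hp
    have := h3 p hp
    simp only [Nat.totient_one, Nat.cast_one, div_one, one_mul] at this
    exact this

end Pool.Agent.R485.RG
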