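import Mathlib

set_option autoImplicit false

/-! A lower bound for the Hausdorff dimension of Cantor sets with a variable number of children. -/

namespace Pool.Agent.R485.RG

open Set Filter Topology MeasureTheory
open scoped ENNReal NNReal

/-- Partial sums. -/
def ES (e : ℕ → ℕ) (i : ℕ) : ℕ := ∑ l ∈ Finset.range i, e l

/-- Integer parts of the parameter in the mixed radix system. -/
noncomputable def NN (e : ℕ → ℕ) (t : ℝ) (i : ℕ) : ℕ := ⌊(2:ℝ)^(ES e i) * t⌋₊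

lemma ES_succ (e : ℕ → ℕ) (i : ℕ) : ES e (i+1) = ES e i + e i := Finset.sum_range_succ _ _

lemma NN_zero (e : ℕ → ℕ) {t : ℝ} (ht : t ∈ Ico (0:ℝ) 1) : NN e t 0 = 0 := by
  simp only [NN, ES, Finset.range_zero, Finset.sum_empty, pow_zero, one_mul]
  exact Nat.floor_eq_zero.2 ht.2

lemma NN_div (e : ℕ → ℕ) (t : ℝ) (i : ℕ) : NN e t (i+1) / 2^(e i) = NN e t i := by
  have := Nat.floor_div_natCast ((2:ℝ)^(ES e (i+1)) * t) (2^(e i))
  simp only [NN]
  rw [← this]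
  congr 1
  rw [ES_succ, pow_add]
  push_cast
  field_simp

lemma NN_succ (e : ℕ → ℕ) (t : ℝ) (i : ℕ) :
    NN e t (i+1) = 2^(e i) * NN e t i + NN e t (i+1) % 2^(e i) := by
  rw [← NN_div e t i]
  exact (Nat.div_add_mod _ _).symm

lemma NN_lt (e : ℕ → ℕ) {t : ℝ} (ht : t ∈ Ico (0:ℝ) 1) (i : ℕ) : NN e t i < 2^(ES e i) := by
  unfold NN
  rw [Nat.floor_lt (mul_nonneg (by positivity) ht.1)]
  push_cast
  have : (0:ℝ) < 2^(ES e i) := by positivity
  nlinarith [ht.2]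

lemma NN_mono (e : ℕ → ℕ) {t t' : ℝ} (h : t ≤ t') (i : ℕ) : NN e t i ≤ NN e t' i := by
  unfold NN
  apply Nat.floor_mono
  gcongr

/-- **Dimension of Cantor sets.** -/
theorem cantor_dim {e : ℕ → ℕ} (he : ∀ M : ℕ, ∃ k, M ≤ ES e k) (I : ℕ → ℕ → Set ℝ)
    (hcomp : ∀ k j, j < 2^(ES e k) → IsCompact (I k j) ∧ (I k j).Nonempty)
    (hsub : ∀ k j i, j < 2^(ES e k) → i < 2^(e k) → I (k+1) (2^(e k) * j + i) ⊆ I k j)
    (s : ℕ → ℝ) (hs : ∀ k, 0 < s k)
    (hsep : ∀ k j i i', j < 2^(ES e k) → i < i' → i' < 2^(e k) →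
      ∀ x ∈ I (k+1) (2^(e k) * j + i), ∀ y ∈ I (k+1) (2^(e k) * j + i'),
        ((i' : ℝ) - i) * s k ≤ y - x)
    {t : ℝ} (ht0 : 0 < t) (ht1 : t ≤ 1) {C : ℝ} (hC : 0 < C)
    (hcond : ∀ k, 2 ≤ C * 2^(ES e k) * (2^(e k) * s k) ^ t) :
    ENNReal.ofReal t ≤ dimH {x | ∀ k, ∃ j < 2^(ES e k), x ∈ I k j} := by
  classical
  have hex : ∀ τ : ℝ, τ ∈ Ico (0:ℝ) 1 → ∃ x : ℝ, ∀ k, x ∈ I k (NN e τ k) := by
    intro τ hτ
    have h := IsCompact.nonempty_iInter_of_sequence_nonempty_isCompact_isClosed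
      (fun k => I k (NN e τ k)) (fun k => by
        rw [NN_succ e τ k]
        exact hsub k _ _ (NN_lt e hτ k) (Nat.mod_lt _ (by positivity)))
      (fun k => (hcomp k _ (NN_lt e hτ k)).2) (hcomp 0 _ (NN_lt e hτ 0)).1
      (fun k => (hcomp k _ (NN_lt e hτ k)).1.isClosed)
    obtain ⟨x, hx⟩ := h
    exact ⟨x, fun k => mem_iInter.1 hx k⟩
  choose! X hX using hex
  have key : ∀ τ ∈ Ico (0:ℝ) 1, ∀ τ' ∈ Ico (0:ℝ) 1, τ < τ' →
      0 < X τ' - X τ ∧ τ' - τ ≤ C * (X τ' - X τ) ^ t := by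
    intro τ hτ τ' hτ' hlt
    have hne : ∃ k, NN e τ k ≠ NN e τ' k := by
      by_contra hcon
      push Not at hcon
      obtain ⟨M, hM⟩ := exists_nat_gt (1 / (τ' - τ))
      obtain ⟨k, hk⟩ := he M
      have hp : (0:ℝ) < 2^(ES e k) := by positivity
      have h1 : (NN e τ' k : ℝ) ≤ 2^(ES e k) * τ' :=
        Nat.floor_le (mul_nonneg (by positivity) hτ'.1)
      have h2 : 2^(ES e k) * τ < (NN e τ k : ℝ) + 1 := Nat.lt_floor_add_one _
      have h1' : 2^(ES e k) * τ' < (NN e τ' k : ℝ) + 1 := Nat.lt_floor_add_one _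
      have h2' : (NN e τ k : ℝ) ≤ 2^(ES e k) * τ := Nat.floor_le (mul_nonneg (by positivity) hτ.1)
      rw [hcon k] at h2'
      have h3 : 2^(ES e k) * (τ' - τ) < 1 := by nlinarith
      have h4 : (M : ℝ) < 2^(ES e k) := by
        calc (M : ℝ) ≤ (ES e k : ℝ) := by exact_mod_cast hk
          _ < 2^(ES e k) := by exact_mod_cast Nat.lt_two_pow_self
      have h5 : 0 < τ' - τ := by linarith
      rw [div_lt_iff₀ h5] at hM
      nlinarith
    obtain ⟨k, hk1, hk2⟩ : ∃ k, NN e τ (k+1) ≠ NN e τ' (k+1) ∧ NN e τ k = NN e τ' k := by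
      have h1 := Nat.find_spec hne
      have h2 : Nat.find hne ≠ 0 := by
        intro h0
        rw [h0, NN_zero e hτ, NN_zero e hτ'] at h1
        exact h1 rfl
      obtain ⟨k, hk⟩ := Nat.exists_eq_succ_of_ne_zero h2
      refine ⟨k, by rw [hk] at h1; exact h1, ?_⟩
      have := Nat.find_min hne (m := k) (by omega)
      push Not at this
      exact this
    set j := NN e τ k with hj
    set i := NN e τ (k+1) % 2^(e k) with hi
    set i' := NN e τ' (k+1) % 2^(e k) with hi'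
    have e1 : NN e τ (k+1) = 2^(e k) * j + i := NN_succ e τ k
    have e2 : NN e τ' (k+1) = 2^(e k) * j + i' := by rw [hk2]; exact NN_succ e τ' k
    have hii : i < i' := by
      have h1 := NN_mono e hlt.le (k+1)
      have h2 : NN e τ (k+1) < NN e τ' (k+1) := lt_of_le_of_ne h1 hk1
      rw [e1, e2] at h2
      omega
    have hi2 : i' < 2^(e k) := Nat.mod_lt _ (by positivity)
    have hjl : j < 2^(ES e k) := NN_lt e hτ k
    have hx1 := hX τ hτ (k+1)
    have hx2 := hX τ' hτ' (k+1)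
    rw [e1] at hx1
    rw [e2] at hx2
    have hd := hsep k j i i' hjl hii hi2 _ hx1 _ hx2
    set m : ℝ := (i' : ℝ) - i with hm
    have hm1 : 1 ≤ m := by
      have : ((i + 1 : ℕ) : ℝ) ≤ i' := by exact_mod_cast hii
      push_cast at this
      linarith
    have hm2 : m ≤ 2^(e k) := by
      have h1 : (i' : ℝ) < 2^(e k) := by exact_mod_cast hi2
      have h2 : (0:ℝ) ≤ i := Nat.cast_nonneg _
      linarith
    have hms : 0 < m * s k := mul_pos (by linarith) (hs k)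
    refine ⟨lt_of_lt_of_le hms hd, ?_⟩
    have hp : (0:ℝ) < 2^(ES e (k+1)) := by positivity
    have h1 : 2^(ES e (k+1)) * τ' < (NN e τ' (k+1) : ℝ) + 1 := Nat.lt_floor_add_one _
    have h2 : (NN e τ (k+1) : ℝ) ≤ 2^(ES e (k+1)) * τ :=
      Nat.floor_le (mul_nonneg (by positivity) hτ.1)
    rw [e2] at h1
    rw [e1] at h2
    push_cast at h1 h2
    have h3 : 2^(ES e (k+1)) * (τ' - τ) ≤ 2 * m := by
      rw [hm] at hm1 ⊢
      nlinarith
    have h4 : τ' - τ ≤ 2 * m / 2^(ES e (k+1)) := by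
      rw [le_div_iff₀ hp]
      linarith
    refine h4.trans ?_
    have h5 : C * (m * s k) ^ t ≤ C * (X τ' - X τ) ^ t :=
      mul_le_mul_of_nonneg_left (Real.rpow_le_rpow hms.le hd ht0.le) hC.le
    refine le_trans ?_ h5
    have hc := hcond k
    have hpe : (0:ℝ) < 2^(e k) := by positivity
    have hpE : (0:ℝ) < 2^(ES e k) := by positivity
    rw [Real.mul_rpow hpe.le (hs k).le] at hc
    rw [Real.mul_rpow (by linarith) (hs k).le, ES_succ, pow_add, div_le_iff₀ (by positivity)]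
    have hm0 : 0 < m := by linarith
    -- `m ≤ m ^ t * (2 ^ e) ^ (1 - t)`
    have h6 : m ≤ m ^ t * (2^(e k) : ℝ) ^ (1 - t) := by
      calc m = m ^ t * m ^ (1 - t) := by
            rw [← Real.rpow_add hm0, add_sub_cancel, Real.rpow_one]
        _ ≤ m ^ t * (2^(e k) : ℝ) ^ (1 - t) := by
            apply mul_le_mul_of_nonneg_left _ (by positivity)
            exact Real.rpow_le_rpow hm0.le hm2 (by linarith)
    have h7 : (2^(e k) : ℝ) ^ t * (2^(e k) : ℝ) ^ (1 - t) = 2^(e k) := by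
      rw [← Real.rpow_add hpe, add_sub_cancel, Real.rpow_one]
    have hst : 0 < s k ^ t := Real.rpow_pos_of_pos (hs k) _
    have hmt : 0 < m ^ t := Real.rpow_pos_of_pos hm0 _
    have het : 0 < (2^(e k) : ℝ) ^ (1 - t) := Real.rpow_pos_of_pos hpe _
    calc 2 * m ≤ 2 * (m ^ t * (2^(e k) : ℝ) ^ (1 - t)) := by linarith
      _ ≤ (C * 2^(ES e k) * ((2^(e k) : ℝ) ^ t * s k ^ t)) * (m ^ t * (2^(e k) : ℝ) ^ (1 - t)) := by
          apply mul_le_mul_of_nonneg_right hc (by positivity)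
      _ = C * (m ^ t * s k ^ t) * (2^(ES e k) * ((2^(e k) : ℝ) ^ t * (2^(e k) : ℝ) ^ (1 - t))) := by
          ring
      _ = C * (m ^ t * s k ^ t) * (2^(ES e k) * 2^(e k)) := by rw [h7]
  have hinj : InjOn X (Ico (0:ℝ) 1) := by
    intro τ hτ τ' hτ' h
    rcases lt_trichotomy τ τ' with h1 | h1 | h1
    · have := (key τ hτ τ' hτ' h1).1
      rw [h] at this
      linarith
    · exact h1
    · have := (key τ' hτ' τ hτ h1).1
      rw [h] at this
      linarith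
  set g : ℝ → ℝ := Function.invFunOn X (Ico (0:ℝ) 1) with hg
  have hgX : ∀ τ ∈ Ico (0:ℝ) 1, g (X τ) = τ := fun τ hτ => hinj.leftInvOn_invFunOn hτ
  have hold : HolderOnWith C.toNNReal t.toNNReal g (X '' Ico (0:ℝ) 1) := by
    rintro _ ⟨τ, hτ, rfl⟩ _ ⟨τ', hτ', rfl⟩
    rw [hgX τ hτ, hgX τ' hτ', Real.coe_toNNReal _ ht0.le, edist_dist, edist_dist]
    have hCC : ((C.toNNReal : ℝ≥0) : ℝ≥0∞) = ENNReal.ofReal C := rfl
    rw [hCC]
    have gen : ∀ a ∈ Ico (0:ℝ) 1, ∀ b ∈ Ico (0:ℝ) 1, a < b →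
        ENNReal.ofReal (dist a b) ≤ ENNReal.ofReal C * ENNReal.ofReal (dist (X a) (X b)) ^ t := by
      intro a ha b hb hab
      obtain ⟨h1, h2⟩ := key a ha b hb hab
      rw [Real.dist_eq, Real.dist_eq, abs_sub_comm, abs_of_pos (by linarith), abs_sub_comm,
        abs_of_pos h1, ENNReal.ofReal_rpow_of_pos h1, ← ENNReal.ofReal_mul hC.le]
      exact ENNReal.ofReal_le_ofReal h2
    rcases lt_trichotomy τ τ' with h1 | h1 | h1
    · exact gen τ hτ τ' hτ' h1
    · rw [h1, dist_self]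
      simp
    · rw [dist_comm τ τ', dist_comm (X τ) (X τ')]
      exact gen τ' hτ' τ hτ h1
  have himg : g '' (X '' Ico (0:ℝ) 1) = Ico (0:ℝ) 1 := by
    rw [← image_comp]
    ext y
    constructor
    · rintro ⟨τ, hτ, rfl⟩
      rw [Function.comp_apply, hgX τ hτ]
      exact hτ
    · intro hy
      exact ⟨y, hy, hgX y hy⟩
  have hle := hold.dimH_image_le (by simpa using ht0)
  rw [himg] at hle
  have h1 : dimH (Ico (0:ℝ) 1) = 1 := by
    have h0 := Real.dimH_of_nonempty_interior (E := ℝ) (s := Ico (0:ℝ) 1) (by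
      rw [interior_Ico]
      exact nonempty_Ioo.2 one_pos)
    rw [h0, Module.finrank_self]
    norm_num
  rw [h1] at hle
  have h2 : ((t.toNNReal : ℝ≥0) : ℝ≥0∞) = ENNReal.ofReal t := rfl
  rw [h2] at hle
  have h3 : ENNReal.ofReal t ≤ dimH (X '' Ico (0:ℝ) 1) := by
    have h4 : ENNReal.ofReal t ≠ 0 := by
      rw [ENNReal.ofReal_ne_zero_iff]
      exact ht0
    rwa [ENNReal.le_div_iff_mul_le (Or.inl h4) (Or.inl ENNReal.ofReal_ne_top), one_mul] at hle
  refine h3.trans (dimH_mono ?_)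
  rintro _ ⟨τ, hτ, rfl⟩ k
  exact ⟨NN e τ k, NN_lt e hτ k, hX τ hτ k⟩

end Pool.Agent.R485.RG
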