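import Mathlib

set_option autoImplicit false

/-! The record function and record gaps in every interval. -/

namespace Pool.Agent.R485.RG

open Filter Topology Real

/-- the record function `log x (log₂ x)² log₄ x / (log₃ x)²` -/
noncomputable def F (x : ℝ) : ℝ :=
  log x * (log (log x)) ^ 2 * log (log (log (log x))) / (log (log (log x))) ^ 2

/-- no prime within `T` of `y` -/
def Free (T y : ℝ) : Prop := ∀ p : ℕ, p.Prime → T < |(p : ℝ) - y|

lemma t2 : Tendsto (fun x : ℝ => log (log x)) atTop atTop := tendsto_log_atTop.comp tendsto_log_atTop
lemma t3 : Tendsto (fun x : ℝ => log (log (log x))) atTop atTop := tendsto_log_atTop.comp t2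
lemma t4 : Tendsto (fun x : ℝ => log (log (log (log x)))) atTop atTop := tendsto_log_atTop.comp t3

/-- growth of the record function -/
lemma F_growth (K : ℝ) (hK : 1 ≤ K) : ∀ᶠ X : ℝ in atTop, ∀ y : ℝ, X ≤ y →
    log y ≤ K * log X → F y ≤ 8 * K * F X := by
  filter_upwards [eventually_ge_atTop 1, tendsto_log_atTop.eventually_ge_atTop 1,
    t2.eventually_ge_atTop (max 1 (log K)), t3.eventually_ge_atTop 1,
    t4.eventually_ge_atTop 1] with X h0 h1 h2 h3 h4
  intro y hXy hyK
  have h2a := (le_max_left _ _).trans h2
  have h2b := (le_max_right _ _).trans h2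
  have hX0 : 0 < X := by linarith
  have hK0 : 0 < K := by linarith
  have hy1 : log X ≤ log y := log_le_log hX0 hXy
  have hly : 0 < log y := by linarith
  have hlX : 0 < log X := by linarith
  have e1 : log (log X) ≤ log (log y) := log_le_log hlX hy1
  have e2 : log (log y) ≤ 2 * log (log X) := by
    have : log (log y) ≤ log (K * log X) := log_le_log hly hyK
    rw [log_mul hK0.ne' hlX.ne'] at this
    linarith
  have hlly : 0 < log (log y) := by linarith
  have e3 : log (log (log X)) ≤ log (log (log y)) := log_le_log (by linarith) e1
  have e4 : log (log (log y)) ≤ 2 * log (log (log X)) := by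
    have : log (log (log y)) ≤ log (2 * log (log X)) := log_le_log hlly e2
    rw [log_mul (by norm_num) (by linarith)] at this
    have h5 : log 2 ≤ 1 := by
      have := log_two_lt_d9
      linarith
    linarith
  have hllly : 0 < log (log (log y)) := by linarith
  have e5 : log (log (log (log y))) ≤ 2 * log (log (log (log X))) := by
    have : log (log (log (log y))) ≤ log (2 * log (log (log X))) := log_le_log hllly e4
    rw [log_mul (by norm_num) (by linarith)] at this
    have h5 : log 2 ≤ 1 := by
      have := log_two_lt_d9
      linarith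
    linarith
  have e6 : 0 ≤ log (log (log (log y))) := by
    have : log (log (log (log X))) ≤ log (log (log (log y))) := log_le_log (by linarith) e3
    linarith
  unfold F
  calc log y * (log (log y)) ^ 2 * log (log (log (log y))) / (log (log (log y))) ^ 2
      ≤ (K * log X) * (2 * log (log X)) ^ 2 * (2 * log (log (log (log X)))) /
        (log (log (log X))) ^ 2 := by
        gcongr
    _ = 8 * K * (log X * (log (log X)) ^ 2 * log (log (log (log X))) /
        (log (log (log X))) ^ 2) := by ring

/-- lower bound for the record function -/
lemma F_ge : ∀ᶠ X : ℝ in atTop, log X ≤ F X := by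
  filter_upwards [tendsto_log_atTop.eventually_ge_atTop 1,
    t2.eventually_ge_atTop 1, t3.eventually_ge_atTop 1, t4.eventually_ge_atTop 1] with X h1 h2 h3 h4
  unfold F
  have e1 : log (log (log X)) ≤ log (log X) := by
    have := log_le_sub_one_of_pos (show 0 < log (log X) by linarith)
    linarith
  rw [le_div_iff₀ (by positivity)]
  have e2 : (log (log (log X))) ^ 2 ≤ (log (log X)) ^ 2 := pow_le_pow_left₀ (by linarith) e1 2
  have e3 : 0 < log X := by linarith
  calc log X * (log (log (log X))) ^ 2 ≤ log X * (log (log X)) ^ 2 := by gcongr
    _ = log X * (log (log X)) ^ 2 * 1 := by ring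
    _ ≤ log X * (log (log X)) ^ 2 * log (log (log (log X))) := by gcongr

lemma F_tendsto : Tendsto F atTop atTop :=
  tendsto_atTop_mono' atTop F_ge tendsto_log_atTop

end Pool.Agent.R485.RG
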