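import Pool.Agent.R485.RG.Main

set_option autoImplicit false

/-! Record gaps at the numbers `Y n * α ^ (v n)`: all intervals, and the residual statement. -/

namespace Pool.Agent.R485.RG

open MeasureTheory Filter Topology Set
open Real (log exp)

lemma F_nonneg_ev : ∀ᶠ X : ℝ in atTop, 0 ≤ F X := by
  filter_upwards [F_tendsto.eventually_ge_atTop 0] with X h using h

lemma val_tendsto {Y v : ℕ → ℝ} (h : Adm Y v) {α : ℝ} (hα : 1 < α) :
    Tendsto (fun n => Y n * α ^ (v n)) atTop atTop := by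
  have h1 := Real.tendsto_exp_atTop.comp (G_tendsto h hα)
  obtain ⟨⟨δ, hδ, hY⟩, hv, hlim⟩ := h
  refine h1.congr' ?_
  filter_upwards [hY] with n hn
  simp only [Function.comp_apply]
  exact exp_G (by linarith) (by linarith)

theorem dim_any {c x₀ : ℝ} (hc : 0 < c)
    (hbase : ∀ x : ℝ, x₀ ≤ x → ∀ z : ℝ, 0 ≤ z → ∃ m : ℝ, z ≤ m ∧ m ≤ z + x ∧ Free (c * F x) m)
    (Y v : ℕ → ℕ → ℝ) (h : ∀ i, Adm (Y i) (v i)) {u w t : ℝ} (hu : 1 ≤ u) (huw : u < w)
    (ht0 : 0 < t) (ht1 : t < 1) :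
    ENNReal.ofReal t ≤ dimH {α : ℝ | α ∈ Ioo u w ∧ ∀ i, ∃ᶠ n in atTop,
      Free (c / 192 * (1 - t) * F (Y i n * α ^ (v i n))) (Y i n * α ^ (v i n))} := by
  set η : ℝ := (1 - t) / (2 * (1 + t)) with hη
  have hη0 : 0 < η := by
    rw [hη]
    apply div_pos <;> linarith
  have hη1 : η ≤ 1 / 2 := by
    rw [hη, div_le_div_iff₀ (by linarith) (by norm_num)]
    linarith
  have hη2 : (1 - t) / 4 ≤ η := by
    rw [hη, div_le_div_iff₀ (by norm_num) (by linarith)]
    nlinarith
  set u' : ℝ := (u + w) / 2 with hu'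
  have hu1 : 1 < u' := by rw [hu']; linarith
  have hlu : 0 < log u' := Real.log_pos hu1
  set w' : ℝ := min ((u' + w) / 2) (u' ^ (1 + η)) with hw'
  have h1 : u' < w' := by
    rw [hw', lt_min_iff]
    constructor
    · rw [hu']; linarith
    · calc u' = u' ^ (1 : ℝ) := (Real.rpow_one _).symm
        _ < u' ^ (1 + η) := Real.rpow_lt_rpow_of_exponent_lt hu1 (by linarith)
  have h2 : w' < w := (min_le_left _ _).trans_lt (by rw [hu']; linarith)
  have h3 : log w' ≤ (1 + η) * log u' := by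
    rw [← Real.log_rpow (by linarith)]
    exact Real.log_le_log (by linarith) (min_le_right _ _)
  have hβ : 0 < (1 - η) / t - (1 + η) := by
    rw [sub_pos, lt_div_iff₀ ht0]
    have e1 : η * (2 * (1 + t)) = 1 - t := by
      rw [hη]
      field_simp
    nlinarith
  refine (dim_short hc hbase Y v h hu1 h1 hη0 hη1 h3 ht0 ht1.le hβ).trans (dimH_mono ?_)
  rintro α ⟨hα, hαi⟩
  refine ⟨⟨?_, lt_of_le_of_lt hα.2 h2⟩, fun i => ?_⟩
  · have : u < u' := by rw [hu']; linarith
    exact this.trans_le hα.1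
  · have hα1 : 1 < α := hu1.trans_le hα.1
    have hF := (val_tendsto (h i) hα1).eventually F_nonneg_ev
    refine ((hαi i).and_eventually hF).mono fun n hn => hn.1.mono ?_
    have hF0 := hn.2
    apply mul_le_mul_of_nonneg_right _ hF0
    nlinarith

theorem dim_o {c x₀ : ℝ} (hc : 0 < c)
    (hbase : ∀ x : ℝ, x₀ ≤ x → ∀ z : ℝ, 0 ≤ z → ∃ m : ℝ, z ≤ m ∧ m ≤ z + x ∧ Free (c * F x) m)
    (Y v : ℕ → ℕ → ℝ) (h : ∀ i, Adm (Y i) (v i)) {u w : ℝ} (hu : 1 ≤ u) (huw : u < w)
    (g : ℝ → ℝ) (hg : Tendsto (fun y => g y / F y) atTop (𝓝 0)) :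
    dimH {α : ℝ | α ∈ Ioo u w ∧ ∀ i, ∃ᶠ n in atTop,
      Free (g (Y i n * α ^ (v i n))) (Y i n * α ^ (v i n))} = 1 := by
  refine le_antisymm ((dimH_mono (subset_univ _)).trans (le_of_eq Real.dimH_univ)) ?_
  refine le_of_forall_lt fun s hs => ?_
  obtain ⟨r, hr1, hr2⟩ := exists_between hs
  have hrt : r ≠ ⊤ := (hr2.trans ENNReal.one_lt_top).ne
  set t : ℝ := max (1 / 2) r.toReal with ht
  have ht0 : 0 < t := lt_of_lt_of_le (by norm_num) (le_max_left _ _)
  have ht1 : t < 1 := by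
    rw [ht, max_lt_iff]
    refine ⟨by norm_num, ?_⟩
    rw [← ENNReal.toReal_one]
    exact (ENNReal.toReal_lt_toReal hrt ENNReal.one_ne_top).2 hr2
  have hrt' : r ≤ ENNReal.ofReal t := by
    rw [← ENNReal.ofReal_toReal hrt]
    exact ENNReal.ofReal_le_ofReal (le_max_right _ _)
  refine (hr1.trans_le hrt').trans_le ?_
  refine (dim_any hc hbase Y v h hu huw ht0 ht1).trans (dimH_mono ?_)
  rintro α ⟨hα, hαi⟩
  refine ⟨hα, fun i => ?_⟩
  have hα1 : 1 < α := hu.trans_lt hα.1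
  have hv := val_tendsto (h i) hα1
  have hF := hv.eventually (F_tendsto.eventually_gt_atTop 0)
  have hκ : 0 < c / 192 * (1 - t) := by
    have : 0 < 1 - t := by linarith
    positivity
  have hg' := hv.eventually (hg.eventually (gt_mem_nhds hκ))
  refine ((hαi i).and_eventually (hF.and hg')).mono fun n hn => hn.1.mono ?_
  obtain ⟨-, h1, h2⟩ := hn
  rw [div_lt_iff₀ h1] at h2
  exact h2.le

/-- the open sets in the residual statement -/
lemma open_step {c x₀ : ℝ} (hc : 0 < c)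
    (hbase : ∀ x : ℝ, x₀ ≤ x → ∀ z : ℝ, 0 ≤ z → ∃ m : ℝ, z ≤ m ∧ m ≤ z + x ∧ Free (c * F x) m)
    {Y v : ℕ → ℝ} (h : Adm Y v) {u w : ℝ} (hu : 1 < u) (huw : u < w)
    (hw : log w ≤ (1 + 1 / 2) * log u) (N : ℕ) :
    ∃ V : Set ℝ, IsOpen V ∧ V.Nonempty ∧ V ⊆ Ioo u w ∧ ∀ α ∈ V, ∃ n, N ≤ n ∧
      Free (c / 192 * F (Y n * α ^ (v n))) (Y n * α ^ (v n)) := by
  have hu0 : 0 < u := by linarith
  have hw0 : 0 < w := by linarith
  have hwu : 0 < w - u := by linarith
  have hG := G_tendsto h hu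
  obtain ⟨C, hC, hb⟩ := bounds h hu huw (η := 1 / 2) (by norm_num) (by norm_num) hw
  have hk := kappa h hu huw (η := 1 / 2) (by norm_num) le_rfl hc hw
  have hH : Tendsto (fun n => exp (1 / 2 * G Y v u n)) atTop atTop :=
    Real.tendsto_exp_atTop.comp (hG.const_mul_atTop (by norm_num))
  have hT : ∀ᶠ n in atTop, 0 < c * F (exp (1 / 2 * G Y v u n)) / 2 := by
    filter_upwards [(F_tendsto.comp hH).eventually_gt_atTop 0] with n hn
    simp only [Function.comp_apply] at hn
    positivity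
  have hlim : Tendsto (fun n => u / (w - u) * exp (-((1 - 1 / 2) * G Y v u n))) atTop (𝓝 0) := by
    have h2 : Tendsto (fun n => exp (-((1 - 1 / 2) * G Y v u n))) atTop (𝓝 0) :=
      Real.tendsto_exp_neg_atTop_nhds_zero.comp (hG.const_mul_atTop (by norm_num))
    have h3 := h2.const_mul (u / (w - u))
    rwa [mul_zero] at h3
  obtain ⟨n, hn0, hn1, hn2, hn3, hn4, hn5, hn6⟩ := ((eventually_ge_atTop N).and (hb.and (hk.and
    ((hH.eventually_ge_atTop x₀).and ((hH.eventually_ge_atTop 1).and (hT.and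
      (hlim.eventually (gt_mem_nhds (show (0:ℝ) < 1 / 4 by norm_num))))))))).exists
  obtain ⟨hY, hv, -, -, -⟩ := hn1
  have hv0 : 0 < v n := by linarith
  have hr := (ratio_le (η := 1 / 2) (v := v) hY hv hu0 hwu).trans hn6.le
  rw [div_le_iff₀ (by positivity)] at hr
  have hslope := mul_le_mul_of_nonneg_left (pow_slope hu0 huw.le hv).1 hY.le
  obtain ⟨m, hm1, hm2, hm3⟩ := hbase _ hn3 (Y n * u ^ (v n) + 1) (by positivity)
  set H := exp (1 / 2 * G Y v u n) with hHd
  set T := c * F H / 2 with hTd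
  have hcont : ContinuousOn (fun α : ℝ => Y n * α ^ (v n)) (Icc u w) := by
    apply ContinuousOn.mul continuousOn_const
    apply ContinuousOn.rpow_const continuousOn_id
    intro x hx
    left
    exact (hu0.trans_le hx.1).ne'
  have hmw : m < Y n * w ^ (v n) := by
    have e1 : Y n * (v n * u ^ (v n - 1) * (w - u)) = (w - u) * (v n * (Y n * u ^ (v n - 1))) := by
      ring
    rw [e1, mul_sub] at hslope
    linarith
  obtain ⟨α₀, hα₀, hfα⟩ := intermediate_value_Ioo huw.le hcont ⟨by linarith, hmw⟩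
  refine ⟨Ioo u w ∩ (fun α : ℝ => Y n * α ^ (v n)) ⁻¹' (Ioo (m - T) (m + T)), ?_, ?_, ?_, ?_⟩
  · exact (hcont.mono Ioo_subset_Icc_self).isOpen_inter_preimage isOpen_Ioo isOpen_Ioo
  · refine ⟨α₀, hα₀, ?_⟩
    simp only [mem_preimage]
    have hfα' : Y n * α₀ ^ (v n) = m := hfα
    rw [hfα']
    exact ⟨by linarith, by linarith⟩
  · exact inter_subset_left
  · rintro α ⟨hα, hα2⟩
    simp only [mem_preimage] at hα2
    refine ⟨n, hn0, ?_⟩
    have e1 : Free T (Y n * α ^ (v n)) := by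
      refine Free.move (m := m) ?_ (abs_le.2 ⟨by linarith [hα2.1], by linarith [hα2.2]⟩)
      rw [show 2 * T = c * F H by rw [hTd]; ring]
      exact hm3
    have ha1 : Y n * u ^ (v n) ≤ Y n * α ^ (v n) := by
      apply mul_le_mul_of_nonneg_left _ hY.le
      exact Real.rpow_le_rpow hu0.le hα.1.le (by linarith)
    have ha2 : Y n * α ^ (v n) ≤ Y n * w ^ (v n) := by
      apply mul_le_mul_of_nonneg_left _ hY.le
      exact Real.rpow_le_rpow (by linarith [hα.1]) hα.2.le (by linarith)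
    have hk1 := hn2 (Y n * α ^ (v n)) (by linarith) (by linarith)
    have hT2 : c * (1 / 2) / 48 * F (Y n * α ^ v n) ≤ T := hk1
    refine e1.mono ?_
    rcases le_total 0 (F (Y n * α ^ v n)) with h0 | h0
    · have : c / 192 * F (Y n * α ^ v n) ≤ c * (1 / 2) / 48 * F (Y n * α ^ v n) := by
        apply mul_le_mul_of_nonneg_right _ h0
        linarith
      linarith
    · have : c / 192 * F (Y n * α ^ v n) ≤ 0 :=
        mul_nonpos_of_nonneg_of_nonpos (by positivity) h0
      linarith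

theorem resid {c x₀ : ℝ} (hc : 0 < c)
    (hbase : ∀ x : ℝ, x₀ ≤ x → ∀ z : ℝ, 0 ≤ z → ∃ m : ℝ, z ≤ m ∧ m ≤ z + x ∧ Free (c * F x) m)
    (Y v : ℕ → ℕ → ℝ) (h : ∀ i, Adm (Y i) (v i)) :
    ∀ᶠ α : ℝ in residual ℝ, 1 < α → ∀ i, ∃ᶠ n in atTop,
      Free (c / 192 * F (Y i n * α ^ (v i n))) (Y i n * α ^ (v i n)) := by
  have key : ∀ i N : ℕ, ∀ᶠ α : ℝ in residual ℝ, 1 < α → ∃ n, N ≤ n ∧
      Free (c / 192 * F (Y i n * α ^ (v i n))) (Y i n * α ^ (v i n)) := by
    intro i N
    set S : Set ℝ := {α : ℝ | 1 < α → ∃ n, N ≤ n ∧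
      Free (c / 192 * F (Y i n * α ^ (v i n))) (Y i n * α ^ (v i n))} with hS
    have hd : Dense (interior S) := by
      rw [dense_iff_inter_open]
      intro U hU ⟨x, hx⟩
      rcases lt_or_ge x 1 with hx1 | hx1
      · refine ⟨x, hx, ?_⟩
        rw [mem_interior]
        refine ⟨Iio 1, fun y hy hy1 => absurd hy (by simpa using hy1.le), isOpen_Iio, hx1⟩
      · obtain ⟨ε, hε, hball⟩ := Metric.isOpen_iff.1 hU x hx
        -- a short interval to the right of `x`
        set u : ℝ := x + ε / 4 with hu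
        have hu1 : 1 < u := by rw [hu]; linarith
        set w : ℝ := min (x + ε / 2) (u ^ (1 + 1 / 2 : ℝ)) with hw
        have h1 : u < w := by
          rw [hw, lt_min_iff]
          constructor
          · rw [hu]; linarith
          · calc u = u ^ (1 : ℝ) := (Real.rpow_one _).symm
              _ < u ^ (1 + 1 / 2 : ℝ) := Real.rpow_lt_rpow_of_exponent_lt hu1 (by norm_num)
        have h3 : log w ≤ (1 + 1 / 2) * log u := by
          rw [← Real.log_rpow (by linarith)]
          exact Real.log_le_log (by linarith) (min_le_right _ _)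
        obtain ⟨V, hV1, ⟨y, hy⟩, hV3, hV4⟩ := open_step hc hbase (h i) hu1 h1 h3 N
        refine ⟨y, hball ?_, ?_⟩
        · have := hV3 hy
          rw [Metric.mem_ball, Real.dist_eq, abs_lt]
          have h5 : y < x + ε / 2 := this.2.trans_le (min_le_left _ _)
          have h6 : x + ε / 4 < y := this.1
          constructor <;> linarith
        · rw [mem_interior]
          exact ⟨V, fun z hz _ => hV4 z hz, hV1, hy⟩
    have h2 : interior S ∈ residual ℝ := residual_of_dense_open isOpen_interior hd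
    exact mem_of_superset h2 interior_subset
  have h3 : ∀ᶠ α : ℝ in residual ℝ, ∀ i N : ℕ, 1 < α → ∃ n, N ≤ n ∧
      Free (c / 192 * F (Y i n * α ^ (v i n))) (Y i n * α ^ (v i n)) := by
    rw [eventually_countable_forall]
    intro i
    rw [eventually_countable_forall]
    exact fun N => key i N
  filter_upwards [h3] with α hα h1 i
  rw [frequently_atTop]
  intro N
  obtain ⟨n, hn, h⟩ := hα i N h1
  exact ⟨n, hn, h⟩

end Pool.Agent.R485.RG
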