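import Pool.Agent.R485.RG.Mtp

set_option autoImplicit false

/-! Sequences of functions which hit a set of real numbers that is relatively dense on long intervals. -/

namespace Pool.Agent.R485.RG

open MeasureTheory Filter Topology Set
open scoped ENNReal

/-- `Good n T y`: the property wanted at `y`; `Cen n T m`: `m` is a centre. -/
theorem gen {t : ℝ} (ht0 : 0 < t) (ht : t ≤ 1) (f : ℕ → ℕ → ℝ → ℝ) (a b H T : ℕ → ℕ → ℝ)
    (Cen : ℕ → ℕ → ℝ → Prop)
    (ha : ∀ i, ∀ᶠ n in atTop, 0 < a i n ∧ 0 < b i n ∧ 0 < H i n ∧ 0 < T i n)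
    (hf : ∀ i, ∀ᶠ n in atTop, ContinuousOn (f i n) (Icc 0 1) ∧
      ∀ x ∈ Icc (0:ℝ) 1, ∀ y ∈ Icc (0:ℝ) 1, x ≤ y → a i n * (y - x) ≤ f i n y - f i n x ∧
        f i n y - f i n x ≤ b i n * (y - x))
    (hcen : ∀ i, ∀ᶠ n in atTop, ∀ z, f i n 0 ≤ z → z ≤ f i n 1 →
      ∃ m, z ≤ m ∧ m ≤ z + H i n ∧ Cen i n m)
    (hlim : ∀ i, Tendsto (fun n => H i n / a i n) atTop (𝓝 0))
    (hsmall : ∀ i, ∀ᶠ n in atTop, (2 * (H i n / a i n)) ^ (1 / t) ≤ T i n / b i n) :
    ENNReal.ofReal t ≤ dimH {x | x ∈ Icc (0:ℝ) 1 ∧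
      ∀ i, ∃ᶠ n in atTop, ∃ m, Cen i n m ∧ |f i n x - m| ≤ T i n} := by
  classical
  -- radii which are always positive
  set ρ : ℕ → ℕ → ℝ := fun i n =>
    if 0 < a i n ∧ 0 < b i n ∧ 0 < H i n ∧ 0 < T i n then 2 * (H i n / a i n)
      else 1 / ((n : ℝ) + 1) with hρdef
  have hρev : ∀ i, ∀ᶠ n in atTop, ρ i n = 2 * (H i n / a i n) := by
    intro i
    filter_upwards [ha i] with n hn
    simp only [hρdef]
    rw [if_pos hn]
  have hρ : ∀ i k, 0 < ρ i k := by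
    intro i k
    simp only [hρdef]
    split_ifs with h
    · obtain ⟨h1, h2, h3, h4⟩ := h
      positivity
    · positivity
  have hρ0 : ∀ i, Tendsto (ρ i) atTop (𝓝 0) := by
    intro i
    have h1 : Tendsto (fun n => 2 * (H i n / a i n)) atTop (𝓝 (2 * 0)) := (hlim i).const_mul 2
    rw [mul_zero] at h1
    refine h1.congr' ?_
    filter_upwards [hρev i] with n hn
    exact hn.symm
  set C : ℕ → ℕ → Set ℝ := fun i n => {c | c ∈ Icc (0:ℝ) 1 ∧ Cen i n (f i n c)} with hC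
  have hfull : ∀ i, ∀ᵐ x ∂(volume : Measure ℝ), x ∈ Ioo 0 1 →
      ∃ᶠ k in atTop, ∃ c ∈ C i k, |x - c| < ρ i k := by
    intro i
    refine Eventually.of_forall fun x hx => ?_
    refine Eventually.frequently ?_
    have h1x : 0 < 1 - x := by linarith [hx.2]
    have h2 := (hlim i).eventually (gt_mem_nhds h1x)
    filter_upwards [ha i, hf i, hcen i, h2, hρev i] with n h3 h4 h5 h6 h7
    obtain ⟨ha0, hb0, hH0, hT0⟩ := h3
    obtain ⟨hcont, hslope⟩ := h4
    have hx01 : x ∈ Icc (0:ℝ) 1 := ⟨hx.1.le, hx.2.le⟩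
    have h0 : (0:ℝ) ∈ Icc (0:ℝ) 1 := ⟨le_rfl, by norm_num⟩
    have h1 : (1:ℝ) ∈ Icc (0:ℝ) 1 := ⟨by norm_num, le_rfl⟩
    have e1 := (hslope 0 h0 x hx01 hx.1.le).1
    have e2 := (hslope x hx01 1 h1 hx.2.le).1
    have e3 : 0 ≤ a i n * (x - 0) := mul_nonneg ha0.le (by linarith [hx.1])
    have e4 : 0 ≤ a i n * (1 - x) := mul_nonneg ha0.le h1x.le
    obtain ⟨m, hm1, hm2, hm3⟩ := h5 (f i n x) (by linarith) (by linarith)
    rw [div_lt_iff₀ ha0] at h6
    have hm4 : m ≤ f i n 1 := by nlinarith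
    have hivt := intermediate_value_Icc hx.2.le
      (hcont.mono (Icc_subset_Icc hx.1.le le_rfl))
    obtain ⟨c, hc, hfc⟩ := hivt ⟨hm1, hm4⟩
    have hc01 : c ∈ Icc (0:ℝ) 1 := ⟨hx.1.le.trans hc.1, hc.2⟩
    refine ⟨c, ⟨hc01, by rw [hfc]; exact hm3⟩, ?_⟩
    have e5 := (hslope x hx01 c hc01 hc.1).1
    rw [hfc] at e5
    rw [h7, abs_sub_comm, abs_of_nonneg (by linarith [hc.1])]
    have e6 : c - x ≤ H i n / a i n := by
      rw [le_div_iff₀ ha0]
      linarith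
    have e7 : 0 < H i n / a i n := by positivity
    linarith
  refine (dimI ht0 ht C ρ hρ hρ0 hfull).trans (dimH_mono ?_)
  rintro x ⟨hx, hxi⟩
  refine ⟨hx, fun i => ?_⟩
  have h1 : ∀ᶠ k in atTop, (∃ c ∈ C i k, |x - c| < ρ i k ^ (1/t)) →
      ∃ m, Cen i k m ∧ |f i k x - m| ≤ T i k := by
    filter_upwards [ha i, hf i, hsmall i, hρev i] with n h3 h4 h5 h6
    rintro ⟨c, ⟨hc01, hc⟩, hxc⟩
    obtain ⟨ha0, hb0, hH0, hT0⟩ := h3
    obtain ⟨hcont, hslope⟩ := h4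
    refine ⟨f i n c, hc, ?_⟩
    rw [h6] at hxc
    have e1 : |x - c| ≤ T i n / b i n := hxc.le.trans h5
    have e2 : |f i n x - f i n c| ≤ b i n * |x - c| := by
      rcases le_total x c with h | h
      · have := hslope x hx c hc01 h
        have e3 : 0 ≤ a i n * (c - x) := mul_nonneg ha0.le (by linarith)
        rw [abs_sub_comm, abs_of_nonneg (by linarith), abs_sub_comm, abs_of_nonneg (by linarith)]
        exact this.2
      · have := hslope c hc01 x hx h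
        have e3 : 0 ≤ a i n * (x - c) := mul_nonneg ha0.le (by linarith)
        rw [abs_of_nonneg (by linarith), abs_of_nonneg (by linarith)]
        exact this.2
    refine e2.trans ?_
    rw [le_div_iff₀ hb0] at e1
    linarith
  exact ((hxi i).and_eventually h1).mono fun k hk => hk.2 hk.1

end Pool.Agent.R485.RG
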