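import Pool.Agent.R485.RG.Fin
import Pool.Agent.R485.RG.Allk

set_option autoImplicit false

/-! All terms of a lacunary sequence `Y n * α ^ (v n)` in record gaps. -/

namespace Pool.Agent.R485.RG

open MeasureTheory Filter Topology Set
open Real (log exp)

lemma F_le_pow : ∀ᶠ X : ℝ in atTop, F X ≤ log X ^ 4 := by
  filter_upwards [tendsto_log_atTop_ge, t2.eventually_ge_atTop 1, t3.eventually_ge_atTop 1,
    t4.eventually_ge_atTop 1] with X h1 h2 h3 h4
  unfold F
  have e1 : log (log X) ≤ log X := by
    have := Real.log_le_sub_one_of_pos (show 0 < log X by linarith)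
    linarith
  have e2 : log (log (log X)) ≤ log (log X) := by
    have := Real.log_le_sub_one_of_pos (show 0 < log (log X) by linarith)
    linarith
  have e3 : log (log (log (log X))) ≤ log (log (log X)) := by
    have := Real.log_le_sub_one_of_pos (show 0 < log (log (log X)) by linarith)
    linarith
  rw [div_le_iff₀ (by positivity)]
  have e4 : 0 < log X := by linarith
  calc log X * log (log X) ^ 2 * log (log (log (log X)))
      ≤ log X * log X ^ 2 * log X := by
        have : log (log (log (log X))) ≤ log X := by linarith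
        gcongr
    _ = log X ^ 4 * 1 := by ring
    _ ≤ log X ^ 4 * log (log (log X)) ^ 2 := by
        apply mul_le_mul_of_nonneg_left _ (by positivity)
        exact one_le_pow₀ h3
where
  tendsto_log_atTop_ge : ∀ᶠ X : ℝ in atTop, 1 ≤ log X := Real.tendsto_log_atTop.eventually_ge_atTop 1

lemma F_small {ε : ℝ} (hε : 0 < ε) : ∀ᶠ X : ℝ in atTop, F X ≤ ε * X := by
  have h := (Real.isLittleO_pow_log_id_atTop (n := 4)).bound hε
  filter_upwards [F_le_pow, h, eventually_ge_atTop (0:ℝ)] with X h1 h2 h3
  simp only [id, Real.norm_eq_abs] at h2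
  rw [abs_of_nonneg h3] at h2
  exact (h1.trans (le_abs_self _)).trans h2

/-- **All terms of a lacunary sequence**, short intervals. -/
theorem all_short {c x₀ : ℝ} (hc : 0 < c)
    (hbase : ∀ x : ℝ, x₀ ≤ x → ∀ z : ℝ, 0 ≤ z → ∃ m : ℝ, z ≤ m ∧ m ≤ z + x ∧ Free (c * F x) m)
    (Y v : ℕ → ℝ) (h : Adm Y v) {δ C₀ : ℝ} (hδ : 0 < δ)
    (hgr : ∀ᶠ n in atTop, (1 + δ) * v n ≤ v (n + 1) ∧ (1 + δ) * log (Y n) - C₀ ≤ log (Y (n + 1)))
    {u w η t : ℝ} (hu : 1 < u) (huw : u < w)
    (hη : 0 < η) (hη1 : η ≤ 1 / 2) (hw : log w ≤ (1 + η) * log u) (ht0 : 0 < t) (ht1 : t ≤ 1)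
    (hη2 : η * (2 + 2 * t + 4 / (δ / 2)) ≤ 1 - t) :
    ENNReal.ofReal t ≤ dimH {α : ℝ | α ∈ Icc u w ∧ ∀ᶠ n in atTop,
      Free (c * η / 48 * F (Y n * α ^ (v n))) (Y n * α ^ (v n))} := by
  have hu0 : 0 < u := by linarith
  have hw0 : 0 < w := by linarith
  have hwu : 0 < w - u := by linarith
  have hlu : 0 < log u := Real.log_pos hu
  set δ' : ℝ := δ / 2 with hδ'
  have hδ'0 : 0 < δ' := by rw [hδ']; linarith
  set g : ℕ → ℝ := G Y v u with hg
  have hG : Tendsto g atTop atTop := G_tendsto h hu
  obtain ⟨C, hC, hb⟩ := bounds h hu huw hη (by linarith) hw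
  have hk := kappa h hu huw hη hη1 hc hw
  have hH : Tendsto (fun n => exp (η * g n)) atTop atTop :=
    Real.tendsto_exp_atTop.comp (hG.const_mul_atTop hη)
  have hT1 : ∀ᶠ n in atTop, 1 ≤ c * F (exp (η * g n)) / 2 := by
    filter_upwards [(F_tendsto.comp hH).eventually_ge_atTop (2 / c)] with n hn
    simp only [Function.comp_apply] at hn
    rw [div_le_iff₀ hc] at hn
    linarith
  have hT2 : ∀ᶠ n in atTop, c * F (exp (η * g n)) / 2 ≤ exp (η * g n) := by
    filter_upwards [hH.eventually (F_small (show 0 < 2 / c by positivity))] with n hn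
    have e1 : c * F (exp (η * g n)) ≤ c * (2 / c * exp (η * g n)) :=
      mul_le_mul_of_nonneg_left hn hc.le
    have e2 : c * (2 / c * exp (η * g n)) = 2 * exp (η * g n) := by field_simp
    linarith
  have hgr2 : ∀ᶠ n in atTop, (1 + δ') * g n ≤ g (n + 1) := by
    filter_upwards [hgr, hG.eventually_ge_atTop (2 * |C₀| / δ)] with n h1 h2
    obtain ⟨h3, h4⟩ := h1
    rw [div_le_iff₀ hδ] at h2
    have h5 : (1 + δ) * v n * log u ≤ v (n + 1) * log u := mul_le_mul_of_nonneg_right h3 hlu.le
    have h6 : (1 + δ) * g n - C₀ ≤ g (n + 1) := by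
      simp only [hg, G]
      linarith
    have h7 := le_abs_self C₀
    rw [hδ']
    nlinarith
  have ha1 : ∀ᶠ n in atTop, 8 * u ≤ exp (η * g n) := hH.eventually_ge_atTop _
  have hb1 : ∀ᶠ n in atTop, exp C / (w * log u) * (g n + C) * exp (-(η * g n)) ≤ 1 := by
    have h1 := ((small_lim (exp C / (w * log u)) C η hη).comp hG).eventually (gt_mem_nhds one_pos)
    filter_upwards [h1] with n hn
    exact hn.le
  have h8 : 0 ≤ (1 - 2 * η) * (1 + δ') - (1 + 2 * η) := by
    have e1 : η * (2 + 4 / δ') ≤ 1 := by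
      have : 0 ≤ η * (2 * t) := by positivity
      nlinarith
    have e2 : (1 - 2 * η) * (1 + δ') - (1 + 2 * η) = δ' * (1 - η * (2 + 4 / δ')) := by
      field_simp
      ring
    rw [e2]
    apply mul_nonneg hδ'0.le
    linarith
  have h2η : 0 < 1 - 2 * η := by
    by_contra hcon
    push Not at hcon
    have e1 : (1 - 2 * η) * (1 + δ') ≤ 0 := mul_nonpos_of_nonpos_of_nonneg hcon (by linarith)
    linarith
  have hinit : ∀ᶠ n in atTop, 1 ≤ (w - u) * exp ((1 - 2 * η) * g n) := by
    have h1 : Tendsto (fun n => (w - u) * exp ((1 - 2 * η) * g n)) atTop atTop :=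
      (Real.tendsto_exp_atTop.comp (hG.const_mul_atTop h2η)).const_mul_atTop hwu
    exact h1.eventually_ge_atTop 1
  obtain ⟨K, hK⟩ := eventually_atTop.1 (hb.and (hk.and (hT1.and (hT2.and (hgr2.and (ha1.and
    (hb1.and (hinit.and (hH.eventually_ge_atTop x₀)))))))))
  -- the sequences
  set a : ℕ → ℝ := fun n => v n * (Y n * u ^ (v n - 1)) with ha
  set b : ℕ → ℝ := fun n => v n * (Y n * w ^ (v n - 1)) with hbb
  set H : ℕ → ℝ := fun n => exp (η * g n) with hHH
  set T : ℕ → ℝ := fun n => c * F (exp (η * g n)) / 2 with hTT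
  have hYK : ∀ n, K ≤ n → 0 < Y n := fun n hn => (hK n hn).1.1
  have hvK : ∀ n, K ≤ n → 1 ≤ v n := fun n hn => (hK n hn).1.2.1
  have hgK : ∀ n, K ≤ n → 1 ≤ g n := fun n hn => (hK n hn).1.2.2.1
  have haK : ∀ n, K ≤ n → 0 < a n := by
    intro n hn
    have h1 := hYK n hn
    have h2 := hvK n hn
    have h3 : 0 < v n := by linarith
    simp only [ha]
    positivity
  have habK : ∀ n, K ≤ n → a n ≤ b n := by
    intro n hn
    have h1 := hYK n hn
    have h2 := hvK n hn
    have h3 : 0 < v n := by linarith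
    simp only [ha, hbb]
    have h4 : u ^ (v n - 1) ≤ w ^ (v n - 1) := Real.rpow_le_rpow hu0.le huw.le (by linarith)
    gcongr
  have hTK : ∀ n, K ≤ n → 1 ≤ T n := fun n hn => (hK n hn).2.2.1
  have hTHK : ∀ n, K ≤ n → T n ≤ H n := fun n hn => (hK n hn).2.2.2.1
  have haH : ∀ n, K ≤ n → exp ((1 - 2 * η) * g n) ≤ a n / (8 * H n) := by
    intro n hn
    have h1 := hYK n hn
    have h2 := hvK n hn
    have h3 : 8 * u ≤ exp (η * g n) := (hK n hn).2.2.2.2.2.1
    have h4 : exp (g n) = Y n * u ^ (v n) := exp_G h1 hu0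
    have h5 : u ^ (v n - 1) = u ^ (v n) / u := by rw [Real.rpow_sub hu0, Real.rpow_one]
    have h6 : exp (g n) / u ≤ a n := by
      simp only [ha]
      rw [h5, h4]
      have h7 : 0 < Y n * u ^ (v n) / u := by positivity
      calc Y n * u ^ (v n) / u = 1 * (Y n * u ^ (v n) / u) := (one_mul _).symm
        _ ≤ v n * (Y n * u ^ (v n) / u) := mul_le_mul_of_nonneg_right h2 h7.le
        _ = v n * (Y n * (u ^ (v n) / u)) := by ring
    rw [le_div_iff₀ (by positivity)]
    refine le_trans ?_ h6
    rw [le_div_iff₀ hu0]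
    have e1 : exp ((1 - 2 * η) * g n) * H n * exp (η * g n) = exp (g n) := by
      simp only [hHH]
      rw [← Real.exp_add, ← Real.exp_add]
      congr 1
      ring
    have e2 : 0 < exp ((1 - 2 * η) * g n) * H n := by
      simp only [hHH]
      positivity
    calc exp ((1 - 2 * η) * g n) * (8 * H n) * u = (exp ((1 - 2 * η) * g n) * H n) * (8 * u) := by
          ring
      _ ≤ (exp ((1 - 2 * η) * g n) * H n) * exp (η * g n) := mul_le_mul_of_nonneg_left h3 e2.le
      _ = exp (g n) := e1
  have hbK : ∀ n, K ≤ n → b n ≤ exp ((1 + 2 * η) * g n) := by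
    intro n hn
    have h1 := hYK n hn
    have h2 := hvK n hn
    have h3 := (hK n hn).1.2.2.2.1
    have h4 := (hK n hn).1.2.2.2.2
    have h5 := (hK n hn).2.2.2.2.2.2.1
    have h6 : w ^ (v n - 1) = w ^ (v n) / w := by rw [Real.rpow_sub hw0, Real.rpow_one]
    have hgn := hgK n hn
    simp only [hbb]
    rw [h6]
    have h7 : 0 < Y n * w ^ (v n) := by positivity
    have h8 : 0 ≤ (g n + C) / log u := by positivity
    calc v n * (Y n * (w ^ (v n) / w)) = v n * (Y n * w ^ (v n)) / w := by ring
      _ ≤ ((g n + C) / log u) * exp ((1 + η) * g n + C) / w := by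
          gcongr
      _ = (exp C / (w * log u) * (g n + C) * exp (-(η * g n))) * exp ((1 + 2 * η) * g n) := by
          have e1 : exp ((1 + η) * g n + C) = exp C * (exp (-(η * g n)) * exp ((1 + 2 * η) * g n)) := by
            rw [← Real.exp_add, ← Real.exp_add]
            congr 1
            ring
          rw [e1]
          field_simp
      _ ≤ 1 * exp ((1 + 2 * η) * g n) := mul_le_mul_of_nonneg_right h5 (Real.exp_pos _).le
      _ = _ := one_mul _
  -- lengths
  set l : ℕ → ℝ := fun k => Nat.rec (w - u) (fun j _ => T (K + j) / b (K + j)) k with hl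
  have hl0 : l 0 = w - u := rfl
  have hl1 : ∀ k, l (k + 1) = T (K + k) / b (K + k) := fun k => rfl
  have hlow : ∀ k, exp (-((1 + 2 * η) * g (K + k))) ≤ l (k + 1) := by
    intro k
    have h1 := hTK (K + k) (by omega)
    have h2 := hbK (K + k) (by omega)
    have h3 := (haK (K + k) (by omega)).trans_le (habK (K + k) (by omega))
    rw [hl1, le_div_iff₀ h3, Real.exp_neg]
    refine le_trans ?_ h1
    rw [inv_mul_le_iff₀ (Real.exp_pos _), mul_one]
    exact h2
  have hr0 : 1 ≤ l 0 * (a (K + 0) / (8 * H (K + 0))) := by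
    have h1 := (hK K le_rfl).2.2.2.2.2.2.2.1
    have h2 := haH K le_rfl
    rw [hl0, add_zero]
    exact h1.trans (mul_le_mul_of_nonneg_left h2 hwu.le)
  have hrs : ∀ k, exp ((1 - 2 * η) * g (K + (k + 1)) - (1 + 2 * η) * g (K + k)) ≤
      l (k + 1) * (a (K + (k + 1)) / (8 * H (K + (k + 1)))) := by
    intro k
    have h1 := hlow k
    have h2 := haH (K + (k + 1)) (by omega)
    calc exp ((1 - 2 * η) * g (K + (k + 1)) - (1 + 2 * η) * g (K + k))
        = exp (-((1 + 2 * η) * g (K + k))) * exp ((1 - 2 * η) * g (K + (k + 1))) := by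
          rw [← Real.exp_add]
          congr 1
          ring
      _ ≤ _ := mul_le_mul h1 h2 (Real.exp_pos _).le ((Real.exp_pos _).le.trans h1)
  have hgs : ∀ k, (1 + δ') * g (K + k) ≤ g (K + (k + 1)) := fun k =>
    (hK (K + k) (by omega)).2.2.2.2.1
  have hr : ∀ k, 1 ≤ l k * (a (K + k) / (8 * H (K + k))) := by
    intro k
    cases k with
    | zero => exact hr0
    | succ k =>
      refine le_trans ?_ (hrs k)
      apply Real.one_le_exp
      have h1 := hgs k
      have h2 := hgK (K + k) (by omega)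
      have h3 : (1 - 2 * η) * ((1 + δ') * g (K + k)) ≤ (1 - 2 * η) * g (K + (k + 1)) :=
        mul_le_mul_of_nonneg_left h1 h2η.le
      have h4 : 0 ≤ ((1 - 2 * η) * (1 + δ') - (1 + 2 * η)) * g (K + k) :=
        mul_nonneg h8 (by linarith)
      linarith
  have hex : ∀ k, ∃ e : ℕ, 1 ≤ e ∧ (2:ℝ) ^ e * (4 * (H (K + k) / a (K + k))) ≤ l k ∧
      l k * (a (K + k) / (8 * H (K + k))) ≤ 2 ^ e := by
    intro k
    have h1 := hr k
    have hHp : 0 < H (K + k) := Real.exp_pos _
    have hap := haK (K + k) (by omega)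
    set r := l k * (a (K + k) / (8 * H (K + k))) with hrr
    obtain ⟨n, hn1, hn2⟩ := exists_nat_pow_near (show (1:ℝ) ≤ 2 * r by linarith) one_lt_two
    have e1 : l k = r * (8 * (H (K + k) / a (K + k))) := by
      rw [hrr]
      field_simp
    refine ⟨n, ?_, ?_, ?_⟩
    · rcases Nat.eq_zero_or_pos n with h0 | h0
      · rw [h0] at hn2
        norm_num at hn2
        linarith
      · exact h0
    · rw [e1]
      have h2 : 0 < H (K + k) / a (K + k) := by positivity
      nlinarith
    · rw [pow_succ] at hn2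
      linarith
  choose e he1 he2 he3 using hex
  -- the product of the numbers of children
  have hprod : ∀ k, (w - u) * exp ((1 - 2 * η - 4 * η / δ') * g (K + k)) ≤ 2 ^ (ES e (k + 1)) := by
    intro k
    induction k with
    | zero =>
      have h1 : ES e 1 = e 0 := by simp [ES]
      rw [zero_add, h1]
      refine le_trans ?_ (he3 0)
      rw [hl0]
      apply mul_le_mul_of_nonneg_left _ hwu.le
      refine le_trans ?_ (haH (K + 0) (by omega))
      apply Real.exp_le_exp.2
      have h2 := hgK (K + 0) (by omega)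
      have h3 : 0 ≤ 4 * η / δ' * g (K + 0) := by positivity
      linarith
    | succ k ih =>
      rw [ES_succ, pow_add]
      have h1 := he3 (k + 1)
      have h2 := hrs k
      have h3 := hgs k
      have h4 := hgK (K + k) (by omega)
      have h5 : exp ((1 - 2 * η - 4 * η / δ') * g (K + (k + 1))) ≤
          exp ((1 - 2 * η - 4 * η / δ') * g (K + k)) *
            exp ((1 - 2 * η) * g (K + (k + 1)) - (1 + 2 * η) * g (K + k)) := by
        rw [← Real.exp_add]
        apply Real.exp_le_exp.2
        have h6 : 4 * η / δ' * ((1 + δ') * g (K + k)) ≤ 4 * η / δ' * g (K + (k + 1)) :=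
          mul_le_mul_of_nonneg_left h3 (by positivity)
        have h7 : 4 * η / δ' * ((1 + δ') * g (K + k)) =
            4 * η / δ' * g (K + k) + 4 * η * g (K + k) := by
          field_simp
        linarith
      calc (w - u) * exp ((1 - 2 * η - 4 * η / δ') * g (K + (k + 1)))
          ≤ (w - u) * (exp ((1 - 2 * η - 4 * η / δ') * g (K + k)) *
            exp ((1 - 2 * η) * g (K + (k + 1)) - (1 + 2 * η) * g (K + k))) :=
            mul_le_mul_of_nonneg_left h5 hwu.le
        _ = ((w - u) * exp ((1 - 2 * η - 4 * η / δ') * g (K + k))) *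
            exp ((1 - 2 * η) * g (K + (k + 1)) - (1 + 2 * η) * g (K + k)) := by ring
        _ ≤ 2 ^ (ES e (k + 1)) * 2 ^ (e (k + 1)) := by
            apply mul_le_mul ih (h2.trans h1) (Real.exp_pos _).le (by positivity)
  set D : ℝ := 4 / (w - u) + 2 / ((w - u) / 2) ^ t with hD
  have hD0 : 0 < D := by positivity
  have hcond : ∀ k, 2 ≤ D * 2 ^ (ES e k) * (l k / 2) ^ t := by
    intro k
    cases k with
    | zero =>
      have h1 : ES e 0 = 0 := by simp [ES]
      rw [h1, hl0, pow_zero, mul_one]
      have h2 : 0 < ((w - u) / 2) ^ t := by positivity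
      have h3 : 2 = 2 / ((w - u) / 2) ^ t * ((w - u) / 2) ^ t := by field_simp
      have h4 : 0 < 4 / (w - u) := by positivity
      calc (2:ℝ) = 2 / ((w - u) / 2) ^ t * ((w - u) / 2) ^ t := h3
        _ ≤ D * ((w - u) / 2) ^ t := by
            apply mul_le_mul_of_nonneg_right _ h2.le
            rw [hD]
            linarith
    | succ k =>
      have h1 := hprod k
      have h2 := hlow k
      have h4 := hgK (K + k) (by omega)
      have h5 : exp (-((1 + 2 * η) * t * g (K + k))) / 2 ≤ (l (k + 1) / 2) ^ t := by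
        have h6 : (exp (-((1 + 2 * η) * g (K + k))) / 2) ^ t ≤ (l (k + 1) / 2) ^ t :=
          Real.rpow_le_rpow (by positivity) (by linarith) ht0.le
        refine le_trans ?_ h6
        rw [Real.div_rpow (Real.exp_pos _).le (by norm_num), ← Real.exp_mul]
        have h7 : (2:ℝ) ^ t ≤ 2 := by
          calc (2:ℝ) ^ t ≤ 2 ^ (1:ℝ) := Real.rpow_le_rpow_of_exponent_le (by norm_num) ht1
            _ = 2 := Real.rpow_one _
        have h8 : (0:ℝ) < 2 ^ t := by positivity
        have h9 : -((1 + 2 * η) * t * g (K + k)) = -((1 + 2 * η) * g (K + k)) * t := by ring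
        rw [h9]
        exact div_le_div_of_nonneg_left (Real.exp_pos _).le h8 h7
      have h6 : (w - u) / 2 ≤ 2 ^ (ES e (k + 1)) * (l (k + 1) / 2) ^ t := by
        calc (w - u) / 2 ≤ (w - u) / 2 *
              exp ((1 - 2 * η - 4 * η / δ' - (1 + 2 * η) * t) * g (K + k)) := by
              have h7 : 0 ≤ (1 - 2 * η - 4 * η / δ' - (1 + 2 * η) * t) * g (K + k) := by
                apply mul_nonneg _ (by linarith)
                have h8 : η * (2 + 2 * t + 4 / δ') = 2 * η + 2 * η * t + 4 * η / δ' := by ring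
                linarith
              have h8 : 1 ≤ exp ((1 - 2 * η - 4 * η / δ' - (1 + 2 * η) * t) * g (K + k)) :=
                Real.one_le_exp h7
              nlinarith
          _ = ((w - u) * exp ((1 - 2 * η - 4 * η / δ') * g (K + k))) *
              (exp (-((1 + 2 * η) * t * g (K + k))) / 2) := by
              have e1 : exp ((1 - 2 * η - 4 * η / δ' - (1 + 2 * η) * t) * g (K + k)) =
                  exp ((1 - 2 * η - 4 * η / δ') * g (K + k)) *
                    exp (-((1 + 2 * η) * t * g (K + k))) := by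
                rw [← Real.exp_add]
                congr 1
                ring
              rw [e1]
              ring
          _ ≤ _ := mul_le_mul h1 h5 (by positivity) (by positivity)
      have h7 : 4 / (w - u) * ((w - u) / 2) = 2 := by
        field_simp
        norm_num
      have h8 : 4 / (w - u) ≤ D := by
        have : 0 < 2 / ((w - u) / 2) ^ t := by positivity
        rw [hD]
        linarith
      calc (2:ℝ) = 4 / (w - u) * ((w - u) / 2) := h7.symm
        _ ≤ D * (2 ^ (ES e (k + 1)) * (l (k + 1) / 2) ^ t) :=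
            mul_le_mul h8 h6 (by positivity) hD0.le
        _ = _ := by ring
  -- apply the construction
  have key := allk huw (fun k x => Y (K + k) * x ^ (v (K + k))) (fun k => a (K + k))
    (fun k => b (K + k)) (fun k => H (K + k)) (fun k => T (K + k))
    (fun k m => Free (c * F (H (K + k))) m)
    (fun k => haK _ (by omega)) (fun k => habK _ (by omega))
    (fun k => lt_of_lt_of_le one_pos (hTK _ (by omega))) (fun k => hTHK _ (by omega))
    (fun k => by
      apply ContinuousOn.mul continuousOn_const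
      apply ContinuousOn.rpow_const continuousOn_id
      intro x hx
      left
      exact (hu0.trans_le hx.1).ne')
    (fun k x hx y hy hxy => by
      have hY := hYK (K + k) (by omega)
      have hv := hvK (K + k) (by omega)
      have hv0 : 0 < v (K + k) := by linarith
      have hx0 : 0 < x := hu0.trans_le hx.1
      obtain ⟨s1, s2⟩ := pow_slope hx0 hxy hv
      have hyx : 0 ≤ y - x := by linarith
      have e1 : u ^ (v (K + k) - 1) ≤ x ^ (v (K + k) - 1) :=
        Real.rpow_le_rpow hu0.le hx.1 (by linarith)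
      have e2 : y ^ (v (K + k) - 1) ≤ w ^ (v (K + k) - 1) :=
        Real.rpow_le_rpow (by linarith [hy.1]) hy.2 (by linarith)
      rw [← mul_sub]
      constructor
      · calc a (K + k) * (y - x) = Y (K + k) * (v (K + k) * u ^ (v (K + k) - 1) * (y - x)) := by
              simp only [ha]; ring
          _ ≤ Y (K + k) * (v (K + k) * x ^ (v (K + k) - 1) * (y - x)) := by gcongr
          _ ≤ Y (K + k) * (y ^ v (K + k) - x ^ v (K + k)) := mul_le_mul_of_nonneg_left s1 hY.le
      · calc Y (K + k) * (y ^ v (K + k) - x ^ v (K + k))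
            ≤ Y (K + k) * (v (K + k) * y ^ (v (K + k) - 1) * (y - x)) :=
              mul_le_mul_of_nonneg_left s2 hY.le
          _ ≤ Y (K + k) * (v (K + k) * w ^ (v (K + k) - 1) * (y - x)) := by gcongr
          _ = b (K + k) * (y - x) := by simp only [hbb]; ring)
    (fun k z hz1 _ => by
      refine hbase _ (hK (K + k) (by omega)).2.2.2.2.2.2.2.2 z (le_trans ?_ hz1)
      have := hYK (K + k) (by omega)
      positivity)
    l hl0 hl1 e he1 he2 ht0 ht1 hD0 hcond
  refine key.trans (dimH_mono ?_)
  rintro x ⟨hx, hxk⟩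
  refine ⟨hx, eventually_atTop.2 ⟨K, fun n hn => ?_⟩⟩
  obtain ⟨k, rfl⟩ := Nat.exists_eq_add_of_le hn
  obtain ⟨m, hm1, hm2⟩ := hxk k
  have hY := hYK (K + k) (by omega)
  have hv := hvK (K + k) (by omega)
  have e1 : Free (T (K + k)) (Y (K + k) * x ^ (v (K + k))) := by
    refine Free.move (m := m) ?_ hm2
    have e2 : 2 * T (K + k) = c * F (H (K + k)) := by
      simp only [hTT, hHH]
      ring
    rw [e2]
    exact hm1
  refine e1.mono ((hK (K + k) (by omega)).2.1 _ ?_ ?_)
  · have : Y (K + k) * u ^ (v (K + k)) ≤ Y (K + k) * x ^ (v (K + k)) := by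
      apply mul_le_mul_of_nonneg_left _ hY.le
      exact Real.rpow_le_rpow hu0.le hx.1 (by linarith)
    linarith
  · have : Y (K + k) * x ^ (v (K + k)) ≤ Y (K + k) * w ^ (v (K + k)) := by
      apply mul_le_mul_of_nonneg_left _ hY.le
      exact Real.rpow_le_rpow (by linarith [hx.1]) hx.2 (by linarith)
    linarith

end Pool.Agent.R485.RG
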