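import Pool.Agent.R485.RG.Lac

set_option autoImplicit false

/-! All terms of a lacunary sequence `Y n * α ^ (v n)` in record gaps: arbitrary intervals. -/

namespace Pool.Agent.R485.RG

open MeasureTheory Filter Topology Set
open Real (log exp)

lemma adm_of_lac {Y v : ℕ → ℝ} {δ : ℝ} (hδ : 0 < δ) (hY : ∃ y₀ : ℝ, 0 < y₀ ∧ ∀ᶠ n in atTop, y₀ ≤ Y n)
    (hv : ∀ᶠ n in atTop, 1 ≤ v n) (hgr : ∀ᶠ n in atTop, (1 + δ) * v n ≤ v (n + 1)) : Adm Y v := by
  refine ⟨hY, hv, ?_⟩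
  obtain ⟨y₀, hy0, hY⟩ := hY
  obtain ⟨K, hK⟩ := eventually_atTop.1 (hv.and (hgr.and hY))
  have h1 : ∀ k : ℕ, (1 + δ) ^ k ≤ v (K + k) := by
    intro k
    induction k with
    | zero =>
      rw [pow_zero]
      exact (hK K le_rfl).1
    | succ k ih =>
      have h2 := (hK (K + k) (by omega)).2.1
      calc (1 + δ) ^ (k + 1) = (1 + δ) * (1 + δ) ^ k := by ring
        _ ≤ (1 + δ) * v (K + k) := mul_le_mul_of_nonneg_left ih (by linarith)
        _ ≤ v (K + (k + 1)) := h2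
  have h3 : Tendsto (fun k : ℕ => (1 + δ) ^ k) atTop atTop :=
    tendsto_pow_atTop_atTop_of_one_lt (by linarith)
  have h4 : Tendsto (fun k : ℕ => log y₀ + (1 + δ) ^ k) atTop atTop :=
    tendsto_atTop_add_const_left _ _ h3
  rw [← tendsto_add_atTop_iff_nat K]
  refine tendsto_atTop_mono (fun k => ?_) h4
  have h5 := h1 k
  rw [add_comm K k] at h5
  have h6 := Real.log_le_log hy0 (hK (k + K) (by omega)).2.2
  linarith

theorem all_any {c x₀ : ℝ} (hc : 0 < c)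
    (hbase : ∀ x : ℝ, x₀ ≤ x → ∀ z : ℝ, 0 ≤ z → ∃ m : ℝ, z ≤ m ∧ m ≤ z + x ∧ Free (c * F x) m)
    (Y v : ℕ → ℝ) (h : Adm Y v) {δ C₀ : ℝ} (hδ : 0 < δ)
    (hgr : ∀ᶠ n in atTop, (1 + δ) * v n ≤ v (n + 1) ∧ (1 + δ) * log (Y n) - C₀ ≤ log (Y (n + 1)))
    {u w t : ℝ} (hu : 1 ≤ u) (huw : u < w) (ht0 : 0 < t) (ht1 : t < 1) :
    ENNReal.ofReal t ≤ dimH {α : ℝ | α ∈ Ioo u w ∧ ∀ᶠ n in atTop,
      Free (c / 384 * ((1 - t) * δ / (1 + δ)) * F (Y n * α ^ (v n))) (Y n * α ^ (v n))} := by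
  set δ' : ℝ := δ / 2 with hδ'
  have hδ'0 : 0 < δ' := by rw [hδ']; linarith
  have h1t : 0 < 1 - t := by linarith
  set η : ℝ := (1 - t) * δ' / (4 * (1 + δ')) with hη
  have hη0 : 0 < η := by
    rw [hη]
    positivity
  have hη1 : η ≤ 1 / 2 := by
    rw [hη, div_le_div_iff₀ (by linarith) (by norm_num)]
    nlinarith
  have hη2 : η * (2 + 2 * t + 4 / δ') ≤ 1 - t := by
    have e1 : η * (4 + 4 / δ') = 1 - t := by
      rw [hη]
      field_simp
      ring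
    have e2 : η * (2 + 2 * t + 4 / δ') ≤ η * (4 + 4 / δ') :=
      mul_le_mul_of_nonneg_left (by linarith) hη0.le
    linarith
  have hη3 : (1 - t) * δ / (1 + δ) / 8 ≤ η := by
    rw [hη, hδ', div_div, div_le_div_iff₀ (by positivity) (by positivity)]
    have : 0 < (1 - t) * δ := by positivity
    nlinarith
  set u' : ℝ := (u + w) / 2 with hu'
  have hu1 : 1 < u' := by rw [hu']; linarith
  have hlu : 0 < log u' := Real.log_pos hu1
  set w' : ℝ := min ((u' + w) / 2) (u' ^ (1 + η)) with hw'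
  have h1 : u' < w' := by
    rw [hw', lt_min_iff]
    constructor
    · rw [hu']; linarith
    · calc u' = u' ^ (1 : ℝ) := (Real.rpow_one _).symm
        _ < u' ^ (1 + η) := Real.rpow_lt_rpow_of_exponent_lt hu1 (by linarith)
  have h2 : w' < w := (min_le_left _ _).trans_lt (by rw [hu']; linarith)
  have h3 : log w' ≤ (1 + η) * log u' := by
    rw [← Real.log_rpow (by linarith)]
    exact Real.log_le_log (by linarith) (min_le_right _ _)
  refine (all_short hc hbase Y v h hδ hgr hu1 h1 hη0 hη1 h3 ht0 ht1.le hη2).trans (dimH_mono ?_)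
  rintro α ⟨hα, hαn⟩
  have hα1 : 1 < α := hu1.trans_le hα.1
  have hF := (val_tendsto h hα1).eventually F_nonneg_ev
  refine ⟨⟨?_, lt_of_le_of_lt hα.2 h2⟩, ?_⟩
  · have : u < u' := by rw [hu']; linarith
    exact this.trans_le hα.1
  · filter_upwards [hαn, hF] with n hn hF0
    refine hn.mono ?_
    apply mul_le_mul_of_nonneg_right _ hF0
    have e1 : c / 384 * ((1 - t) * δ / (1 + δ)) = c / 48 * ((1 - t) * δ / (1 + δ) / 8) := by ring
    have e2 : c * η / 48 = c / 48 * η := by ring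
    rw [e1, e2]
    exact mul_le_mul_of_nonneg_left hη3 (by positivity)

theorem all_o {c x₀ : ℝ} (hc : 0 < c)
    (hbase : ∀ x : ℝ, x₀ ≤ x → ∀ z : ℝ, 0 ≤ z → ∃ m : ℝ, z ≤ m ∧ m ≤ z + x ∧ Free (c * F x) m)
    (Y v : ℕ → ℝ) (h : Adm Y v) {δ C₀ : ℝ} (hδ : 0 < δ)
    (hgr : ∀ᶠ n in atTop, (1 + δ) * v n ≤ v (n + 1) ∧ (1 + δ) * log (Y n) - C₀ ≤ log (Y (n + 1)))
    {u w : ℝ} (hu : 1 ≤ u) (huw : u < w)
    (g : ℝ → ℝ) (hg : Tendsto (fun y => g y / F y) atTop (𝓝 0)) :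
    dimH {α : ℝ | α ∈ Ioo u w ∧ ∀ᶠ n in atTop,
      Free (g (Y n * α ^ (v n))) (Y n * α ^ (v n))} = 1 := by
  refine le_antisymm ((dimH_mono (subset_univ _)).trans (le_of_eq Real.dimH_univ)) ?_
  refine le_of_forall_lt fun s hs => ?_
  obtain ⟨r, hr1, hr2⟩ := exists_between hs
  have hrt : r ≠ ⊤ := (hr2.trans ENNReal.one_lt_top).ne
  set t : ℝ := max (1 / 2) r.toReal with ht
  have ht0 : 0 < t := lt_of_lt_of_le (by norm_num) (le_max_left _ _)
  have ht1 : t < 1 := by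
    rw [ht, max_lt_iff]
    refine ⟨by norm_num, ?_⟩
    rw [← ENNReal.toReal_one]
    exact (ENNReal.toReal_lt_toReal hrt ENNReal.one_ne_top).2 hr2
  have hrt' : r ≤ ENNReal.ofReal t := by
    rw [← ENNReal.ofReal_toReal hrt]
    exact ENNReal.ofReal_le_ofReal (le_max_right _ _)
  refine (hr1.trans_le hrt').trans_le ?_
  refine (all_any hc hbase Y v h hδ hgr hu huw ht0 ht1).trans (dimH_mono ?_)
  rintro α ⟨hα, hαn⟩
  refine ⟨hα, ?_⟩
  have hα1 : 1 < α := hu.trans_lt hα.1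
  have hv := val_tendsto h hα1
  have hF := hv.eventually (F_tendsto.eventually_gt_atTop 0)
  have hκ : 0 < c / 384 * ((1 - t) * δ / (1 + δ)) := by
    have : 0 < 1 - t := by linarith
    positivity
  have hg' := hv.eventually (hg.eventually (gt_mem_nhds hκ))
  filter_upwards [hαn, hF, hg'] with n hn h1 h2
  refine hn.mono ?_
  rw [div_lt_iff₀ h1] at h2
  exact h2.le

/-- numbers all whose iterated `b`-th powers are in record gaps -/
theorem mills {c x₀ : ℝ} (hc : 0 < c)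
    (hbase : ∀ x : ℝ, x₀ ≤ x → ∀ z : ℝ, 0 ≤ z → ∃ m : ℝ, z ≤ m ∧ m ≤ z + x ∧ Free (c * F x) m)
    {b : ℝ} (hb : 1 < b) (x₁ : ℝ) : ∃ A : ℝ, x₁ ≤ A ∧ 1 < A ∧ ∀ k : ℕ,
      Free (c / 384 * ((b - 1) / (2 * b)) * F (A ^ (b ^ k))) (A ^ (b ^ k)) := by
  have hδ : 0 < b - 1 := by linarith
  have hb0 : 0 < b := by linarith
  have h1 : ∀ᶠ n : ℕ in atTop, (1:ℝ) ≤ (fun n : ℕ => b ^ n) n :=
    Eventually.of_forall fun n => one_le_pow₀ hb.le
  have h2 : ∀ᶠ n : ℕ in atTop, (1 + (b - 1)) * (fun n : ℕ => b ^ n) n ≤ (fun n : ℕ => b ^ n) (n + 1) :=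
    Eventually.of_forall fun n => by
      simp only
      rw [pow_succ]
      apply le_of_eq
      ring
  have hA : Adm (fun _ => 1) (fun n : ℕ => b ^ n) :=
    adm_of_lac hδ ⟨1, one_pos, Eventually.of_forall fun _ => le_rfl⟩ h1 h2
  have h3 := all_any hc hbase (fun _ => 1) (fun n : ℕ => b ^ n) hA (C₀ := 0) hδ
    (by
      filter_upwards [h2] with n hn
      exact ⟨hn, by simp⟩) le_rfl (show (1:ℝ) < 2 by norm_num) (show (0:ℝ) < 1 / 2 by norm_num)
    (by norm_num)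
  obtain ⟨α, hα, hαn⟩ : {α : ℝ | α ∈ Ioo 1 2 ∧ ∀ᶠ n in atTop,
      Free (c / 384 * ((1 - 1 / 2) * (b - 1) / (1 + (b - 1))) * F ((fun _ => (1:ℝ)) n *
        α ^ ((fun n : ℕ => b ^ n) n))) ((fun _ => (1:ℝ)) n * α ^ ((fun n : ℕ => b ^ n) n))}.Nonempty := by
    by_contra hcon
    rw [not_nonempty_iff_eq_empty] at hcon
    rw [hcon, dimH_empty] at h3
    have h4 : (0 : ENNReal) < ENNReal.ofReal (1 / 2) := by
      rw [ENNReal.ofReal_pos]
      norm_num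
    exact absurd h3 (not_le.2 h4)
  obtain ⟨K, hK⟩ := eventually_atTop.1 hαn
  have hα0 : 0 < α := by linarith [hα.1]
  have hlim : Tendsto (fun n : ℕ => α ^ (b ^ n)) atTop atTop := by
    have := val_tendsto hA hα.1
    simpa using this
  obtain ⟨N, hN1, hN2⟩ := ((eventually_ge_atTop K).and (hlim.eventually_ge_atTop x₁)).exists
  refine ⟨α ^ (b ^ N), hN2, Real.one_lt_rpow hα.1 (by positivity), fun k => ?_⟩
  have h5 := hK (N + k) (by omega)
  simp only [one_mul] at h5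
  have e1 : (α ^ (b ^ N)) ^ (b ^ k) = α ^ (b ^ (N + k)) := by
    rw [← Real.rpow_mul hα0.le, pow_add]
  rw [e1]
  have e2 : (1 - 1 / 2) * (b - 1) / (1 + (b - 1)) = (b - 1) / (2 * b) := by
    field_simp
    ring
  rw [e2] at h5
  exact h5

end Pool.Agent.R485.RG
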