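import Pool.Agent.R485.RG.Gen
import Pool.Agent.R485.RG.FF

set_option autoImplicit false

/-! Record gaps at the numbers `Y n * α ^ (v n)`. -/

namespace Pool.Agent.R485.RG

open MeasureTheory Filter Topology Set
open Real (log exp)

/-- the condition on the sequences -/
def Adm (Y v : ℕ → ℝ) : Prop :=
  (∃ δ : ℝ, 0 < δ ∧ ∀ᶠ n in atTop, δ ≤ Y n) ∧ (∀ᶠ n in atTop, 1 ≤ v n) ∧
    Tendsto (fun n => log (Y n) + v n) atTop atTop

/-- `log (Y n * u ^ (v n))` -/
noncomputable def G (Y v : ℕ → ℝ) (u : ℝ) (n : ℕ) : ℝ := log (Y n) + v n * log u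

lemma G_tendsto {Y v : ℕ → ℝ} (h : Adm Y v) {u : ℝ} (hu : 1 < u) : Tendsto (G Y v u) atTop atTop := by
  obtain ⟨⟨δ, hδ, hY⟩, hv, hlim⟩ := h
  have hlu : 0 < log u := Real.log_pos hu
  have h1 : Tendsto (fun n => min 1 (log u) * (log (Y n) + v n) - |log δ|) atTop atTop :=
    tendsto_atTop_add_const_right _ _ (hlim.const_mul_atTop (lt_min one_pos hlu))
  refine tendsto_atTop_mono' atTop ?_ h1
  filter_upwards [hY, hv] with n h2 h3
  unfold G
  have hY0 : log δ ≤ log (Y n) := Real.log_le_log hδ h2
  have h4 : -|log δ| ≤ log (Y n) := (neg_abs_le _).trans hY0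
  have h5 : 0 ≤ |log δ| := abs_nonneg _
  rcases le_total 1 (log u) with h | h
  · rw [min_eq_left h]
    nlinarith
  · rw [min_eq_right h]
    nlinarith

lemma exp_G {Y v : ℕ → ℝ} {u : ℝ} {n : ℕ} (hY : 0 < Y n) (hu : 0 < u) :
    exp (G Y v u n) = Y n * u ^ (v n) := by
  unfold G
  rw [Real.exp_add, Real.exp_log hY, Real.rpow_def_of_pos hu, mul_comm (v n)]

lemma pow_slope {A B v : ℝ} (hA : 0 < A) (hAB : A ≤ B) (hv : 1 ≤ v) :
    v * A ^ (v - 1) * (B - A) ≤ B ^ v - A ^ v ∧ B ^ v - A ^ v ≤ v * B ^ (v - 1) * (B - A) := by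
  have hB : 0 < B := by linarith
  have hAv : 0 < A ^ v := by positivity
  have hBv : 0 < B ^ v := by positivity
  constructor
  · have e1 : -1 ≤ (B - A) / A := by
      have : 0 ≤ (B - A) / A := div_nonneg (by linarith) hA.le
      linarith
    have e2 := one_add_mul_self_le_rpow_one_add e1 hv
    have e3 : 1 + (B - A) / A = B / A := by field_simp; ring
    rw [e3, Real.div_rpow hB.le hA.le, le_div_iff₀ hAv] at e2
    have e4 : A ^ (v - 1) = A ^ v / A := by rw [Real.rpow_sub hA, Real.rpow_one]
    rw [e4]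
    have e5 : v * (A ^ v / A) * (B - A) = v * ((B - A) / A) * A ^ v := by field_simp
    rw [e5]
    linarith
  · have e1 : -1 ≤ (A - B) / B := by
      rw [le_div_iff₀ hB]
      linarith
    have e2 := one_add_mul_self_le_rpow_one_add e1 hv
    have e3 : 1 + (A - B) / B = A / B := by field_simp; ring
    rw [e3, Real.div_rpow hA.le hB.le, le_div_iff₀ hBv] at e2
    have e4 : B ^ (v - 1) = B ^ v / B := by rw [Real.rpow_sub hB, Real.rpow_one]
    rw [e4]
    have e5 : v * (B ^ v / B) * (B - A) = -(v * ((A - B) / B) * B ^ v) := by field_simp; ring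
    rw [e5]
    linarith

/-- the constants of a pair of sequences: everything is controlled by `G` -/
lemma bounds {Y v : ℕ → ℝ} (h : Adm Y v) {u w η : ℝ} (hu : 1 < u) (huw : u < w)
    (hη : 0 < η) (hη1 : η ≤ 1) (hw : log w ≤ (1 + η) * log u) :
    ∃ C : ℝ, 0 ≤ C ∧ ∀ᶠ n in atTop, 0 < Y n ∧ 1 ≤ v n ∧ 1 ≤ G Y v u n ∧
      v n ≤ (G Y v u n + C) / log u ∧
      Y n * w ^ (v n) ≤ exp ((1 + η) * G Y v u n + C) := by
  have hG := G_tendsto h hu
  obtain ⟨⟨δ, hδ, hY⟩, hv, hlim⟩ := h
  have hlu : 0 < log u := Real.log_pos hu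
  refine ⟨|log δ|, abs_nonneg _, ?_⟩
  filter_upwards [hY, hv, hG.eventually_ge_atTop 1] with n h2 h3 h4
  have hYp : 0 < Y n := lt_of_lt_of_le hδ h2
  have hY0 : log δ ≤ log (Y n) := Real.log_le_log hδ h2
  have h5 : -|log δ| ≤ log (Y n) := (neg_abs_le _).trans hY0
  have hw0 : 0 < w := by linarith
  refine ⟨hYp, h3, h4, ?_, ?_⟩
  · rw [le_div_iff₀ hlu]
    unfold G
    linarith
  · have e1 : Y n * w ^ (v n) = exp (G Y v w n) := (exp_G hYp hw0).symm
    rw [e1]
    apply Real.exp_le_exp.2
    unfold G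
    have e2 : v n * log w ≤ v n * ((1 + η) * log u) := mul_le_mul_of_nonneg_left hw (by linarith)
    have e3 : 0 ≤ |log δ| := abs_nonneg _
    nlinarith

/-- comparison of the values of `F` -/
lemma kappa {Y v : ℕ → ℝ} (h : Adm Y v) {u w η c : ℝ} (hu : 1 < u) (huw : u < w)
    (hη : 0 < η) (hη1 : η ≤ 1 / 2) (hc : 0 < c) (hw : log w ≤ (1 + η) * log u) :
    ∀ᶠ n in atTop, ∀ y : ℝ, Y n * u ^ (v n) - 1 ≤ y → y ≤ Y n * w ^ (v n) + 1 →
      c * η / 48 * F y ≤ c * F (exp (η * G Y v u n)) / 2 := by
  obtain ⟨C, hC, hb⟩ := bounds h hu huw hη (by linarith) hw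
  have hG := G_tendsto h hu
  have hH : Tendsto (fun n => exp (η * G Y v u n)) atTop atTop :=
    Real.tendsto_exp_atTop.comp (hG.const_mul_atTop hη)
  have hgr := hH.eventually (F_growth (3 / η) (by rw [le_div_iff₀ hη]; linarith))
  filter_upwards [hb, hgr, hG.eventually_ge_atTop (2 * (C + 1)), hG.eventually_ge_atTop 4]
    with n h1 h2 h3 h4
  obtain ⟨hY, hv, hG1, hvG, hYw⟩ := h1
  intro y hy1 hy2
  set g := G Y v u n with hg
  have hu0 : 0 < u := by linarith
  have e1 : Y n * u ^ (v n) = exp g := (exp_G hY hu0).symm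
  rw [e1] at hy1
  -- `exp g - 1 ≥ exp (g / 2)`
  have e2 : exp (g / 2) + 1 ≤ exp g := by
    have f1 : exp g = exp (g / 2) * exp (g / 2) := by rw [← Real.exp_add]; congr 1; ring
    have f2 : 1 + g / 2 ≤ exp (g / 2) := by
      have := Real.add_one_le_exp (g / 2)
      linarith
    nlinarith
  have e3 : exp (η * g) ≤ y := by
    have f1 : exp (η * g) ≤ exp (g / 2) := Real.exp_le_exp.2 (by nlinarith)
    linarith
  have hy0 : 0 < y := lt_of_lt_of_le (Real.exp_pos _) e3
  have e4 : log y ≤ 3 / η * log (exp (η * g)) := by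
    rw [Real.log_exp]
    have f1 : y ≤ 2 * exp ((1 + η) * g + C) := by
      have f2 : 1 ≤ exp ((1 + η) * g + C) := Real.one_le_exp (by nlinarith)
      linarith
    have f3 : log y ≤ log (2 * exp ((1 + η) * g + C)) := Real.log_le_log hy0 f1
    rw [Real.log_mul (by norm_num) (Real.exp_pos _).ne', Real.log_exp] at f3
    have f4 : log 2 ≤ 1 := by
      have := Real.log_two_lt_d9
      linarith
    have f5 : 3 / η * (η * g) = 3 * g := by field_simp
    rw [f5]
    nlinarith
  have e5 := h2 y e3 e4
  have e6 : c * η / 48 * F y ≤ c * η / 48 * (8 * (3 / η) * F (exp (η * g))) :=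
    mul_le_mul_of_nonneg_left e5 (by positivity)
  refine e6.trans (le_of_eq ?_)
  field_simp
  ring

lemma Free.move {T y m : ℝ} (h : Free (2 * T) m) (hy : |y - m| ≤ T) : Free T y := by
  intro p hp
  have h1 := h p hp
  have h2 : |(p : ℝ) - m| ≤ |(p : ℝ) - y| + |y - m| := abs_sub_le _ _ _
  linarith

lemma Free.mono {T T' y : ℝ} (hT : T' ≤ T) (h : Free T y) : Free T' y :=
  fun p hp => hT.trans_lt (h p hp)

/-- a small auxiliary limit -/
lemma small_lim (K C β : ℝ) (hβ : 0 < β) :
    Tendsto (fun g : ℝ => K * (g + C) * exp (-(β * g))) atTop (𝓝 0) := by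
  have h1 : Tendsto (fun g : ℝ => (β * g) ^ 1 * exp (-(β * g))) atTop (𝓝 0) :=
    (Real.tendsto_pow_mul_exp_neg_atTop_nhds_zero 1).comp (tendsto_id.const_mul_atTop hβ)
  have h2 : Tendsto (fun g : ℝ => exp (-(β * g))) atTop (𝓝 0) :=
    Real.tendsto_exp_neg_atTop_nhds_zero.comp (tendsto_id.const_mul_atTop hβ)
  have h3 := (h1.const_mul (K / β)).add (h2.const_mul (K * C))
  rw [mul_zero, mul_zero, add_zero] at h3
  refine h3.congr fun g => ?_
  field_simp

/-- the ratio of window length and slope -/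
lemma ratio_le {Y v : ℕ → ℝ} {u w η : ℝ} {n : ℕ} (hY : 0 < Y n) (hv : 1 ≤ v n) (hu0 : 0 < u)
    (hwu : 0 < w - u) : exp (η * G Y v u n) / ((w - u) * (v n * (Y n * u ^ (v n - 1)))) ≤
    u / (w - u) * exp (-((1 - η) * G Y v u n)) := by
  have e1 : u ^ (v n - 1) = u ^ (v n) / u := by rw [Real.rpow_sub hu0, Real.rpow_one]
  have e2 := exp_G (v := v) hY hu0
  have hv0 : 0 < v n := by linarith
  rw [div_le_iff₀ (by positivity), e1]
  have e3 : exp (-((1 - η) * G Y v u n)) * exp (G Y v u n) = exp (η * G Y v u n) := by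
    rw [← Real.exp_add]
    congr 1
    ring
  have e4 : u / (w - u) * exp (-((1 - η) * G Y v u n)) *
      ((w - u) * (v n * (Y n * (u ^ (v n) / u)))) =
      v n * (exp (-((1 - η) * G Y v u n)) * (Y n * u ^ (v n))) := by
    field_simp
  rw [e4, ← e2, e3]
  have := Real.exp_pos (η * G Y v u n)
  nlinarith

/-- **The dimension for sequences in a short interval.** -/
theorem dim_short {c x₀ : ℝ} (hc : 0 < c)
    (hbase : ∀ x : ℝ, x₀ ≤ x → ∀ z : ℝ, 0 ≤ z → ∃ m : ℝ, z ≤ m ∧ m ≤ z + x ∧ Free (c * F x) m)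
    (Y v : ℕ → ℕ → ℝ) (h : ∀ i, Adm (Y i) (v i)) {u w η t : ℝ} (hu : 1 < u) (huw : u < w)
    (hη : 0 < η) (hη1 : η ≤ 1 / 2) (hw : log w ≤ (1 + η) * log u) (ht0 : 0 < t) (ht1 : t ≤ 1)
    (hβ : 0 < (1 - η) / t - (1 + η)) :
    ENNReal.ofReal t ≤ dimH {α : ℝ | α ∈ Icc u w ∧ ∀ i, ∃ᶠ n in atTop,
      Free (c * η / 48 * F (Y i n * α ^ (v i n))) (Y i n * α ^ (v i n))} := by
  have hu0 : 0 < u := by linarith
  have hw0 : 0 < w := by linarith
  have hwu : 0 < w - u := by linarith
  have hlu : 0 < log u := Real.log_pos hu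
  set f : ℕ → ℕ → ℝ → ℝ := fun i n x => Y i n * (u + (w - u) * x) ^ (v i n) with hf
  have key := gen ht0 ht1 f
    (fun i n => (w - u) * (v i n * (Y i n * u ^ (v i n - 1))))
    (fun i n => (w - u) * (v i n * (Y i n * w ^ (v i n - 1))))
    (fun i n => exp (η * G (Y i) (v i) u n))
    (fun i n => c * F (exp (η * G (Y i) (v i) u n)) / 2)
    (fun i n m => Free (c * F (exp (η * G (Y i) (v i) u n))) m) ?_ ?_ ?_ ?_ ?_
  · -- transfer to `α`
    set L : ℝ := w - u with hL
    have hlip : LipschitzWith (Real.toNNReal (1 / L)) (fun β : ℝ => (β - u) / L) := by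
      refine LipschitzWith.of_dist_le_mul fun a b => ?_
      rw [Real.coe_toNNReal _ (by positivity), Real.dist_eq, Real.dist_eq, ← sub_div, abs_div,
        abs_of_pos hwu]
      apply le_of_eq
      rw [show a - u - (b - u) = a - b by ring]
      ring
    refine key.trans (le_trans (dimH_mono ?_) (hlip.dimH_image_le _))
    rintro x ⟨hx, hxi⟩
    refine ⟨u + L * x, ⟨⟨?_, ?_⟩, fun i => ?_⟩, by simp only; field_simp; ring⟩
    · have := mul_nonneg hwu.le hx.1
      linarith
    · have := mul_le_mul_of_nonneg_left hx.2 hwu.le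
      linarith
    · have hk := kappa (h i) hu huw hη hη1 hc hw
      obtain ⟨C, hC, hb⟩ := bounds (h i) hu huw hη (by linarith) hw
      refine ((hxi i).and_eventually (hk.and hb)).mono fun n hn => ?_
      obtain ⟨⟨m, hm1, hm2⟩, hk1, hY, hv, -, -, -⟩ := hn
      have e1 : Free (c * F (exp (η * G (Y i) (v i) u n)) / 2) (Y i n * (u + L * x) ^ (v i n)) := by
        refine Free.move (m := m) ?_ hm2
        rw [show 2 * (c * F (exp (η * G (Y i) (v i) u n)) / 2) =
          c * F (exp (η * G (Y i) (v i) u n)) by ring]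
        exact hm1
      refine e1.mono (hk1 _ ?_ ?_)
      · have : Y i n * u ^ (v i n) ≤ Y i n * (u + L * x) ^ (v i n) := by
          apply mul_le_mul_of_nonneg_left _ hY.le
          apply Real.rpow_le_rpow hu0.le _ (by linarith)
          have := mul_nonneg hwu.le hx.1
          linarith
        linarith
      · have : Y i n * (u + L * x) ^ (v i n) ≤ Y i n * w ^ (v i n) := by
          apply mul_le_mul_of_nonneg_left _ hY.le
          apply Real.rpow_le_rpow _ _ (by linarith)
          · have := mul_nonneg hwu.le hx.1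
            linarith
          · have := mul_le_mul_of_nonneg_left hx.2 hwu.le
            linarith
        linarith
  · -- positivity
    intro i
    obtain ⟨C, hC, hb⟩ := bounds (h i) hu huw hη (by linarith) hw
    have hH : Tendsto (fun n => exp (η * G (Y i) (v i) u n)) atTop atTop :=
      Real.tendsto_exp_atTop.comp ((G_tendsto (h i) hu).const_mul_atTop hη)
    filter_upwards [hb, (F_tendsto.comp hH).eventually_gt_atTop 0] with n h1 h2
    obtain ⟨hY, hv, -, -, -⟩ := h1
    simp only [Function.comp_apply] at h2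
    have hv0 : 0 < v i n := by linarith
    refine ⟨by positivity, by positivity, Real.exp_pos _, by positivity⟩
  · -- slopes
    intro i
    obtain ⟨C, hC, hb⟩ := bounds (h i) hu huw hη (by linarith) hw
    filter_upwards [hb] with n h1
    obtain ⟨hY, hv, -, -, -⟩ := h1
    refine ⟨?_, ?_⟩
    · apply ContinuousOn.mul continuousOn_const
      apply ContinuousOn.rpow_const
      · fun_prop
      · intro x hx
        left
        have := mul_nonneg hwu.le hx.1
        have : 0 < u + (w - u) * x := by linarith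
        exact this.ne'
    · intro x hx y hy hxy
      have hx0 := mul_nonneg hwu.le hx.1
      have hy1 := mul_le_mul_of_nonneg_left hy.2 hwu.le
      have hxy' := mul_le_mul_of_nonneg_left hxy hwu.le
      have hA : 0 < u + (w - u) * x := by linarith
      have hAB : u + (w - u) * x ≤ u + (w - u) * y := by linarith
      obtain ⟨s1, s2⟩ := pow_slope hA hAB hv
      have hyx : 0 ≤ y - x := by linarith
      have e1 : u ^ (v i n - 1) ≤ (u + (w - u) * x) ^ (v i n - 1) :=
        Real.rpow_le_rpow hu0.le (by linarith) (by linarith)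
      have e2 : (u + (w - u) * y) ^ (v i n - 1) ≤ w ^ (v i n - 1) :=
        Real.rpow_le_rpow (by linarith) (by linarith) (by linarith)
      have e3 : u + (w - u) * y - (u + (w - u) * x) = (w - u) * (y - x) := by ring
      rw [e3] at s1 s2
      simp only [hf]
      rw [← mul_sub]
      constructor
      · calc (w - u) * (v i n * (Y i n * u ^ (v i n - 1))) * (y - x)
            = Y i n * (v i n * u ^ (v i n - 1) * ((w - u) * (y - x))) := by ring
          _ ≤ Y i n * (v i n * (u + (w - u) * x) ^ (v i n - 1) * ((w - u) * (y - x))) := by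
              have : 0 ≤ (w - u) * (y - x) := mul_nonneg hwu.le hyx
              have hv0 : 0 ≤ v i n := by linarith
              gcongr
          _ ≤ Y i n * ((u + (w - u) * y) ^ (v i n) - (u + (w - u) * x) ^ (v i n)) :=
              mul_le_mul_of_nonneg_left s1 hY.le
      · calc Y i n * ((u + (w - u) * y) ^ (v i n) - (u + (w - u) * x) ^ (v i n))
            ≤ Y i n * (v i n * (u + (w - u) * y) ^ (v i n - 1) * ((w - u) * (y - x))) :=
              mul_le_mul_of_nonneg_left s2 hY.le
          _ ≤ Y i n * (v i n * w ^ (v i n - 1) * ((w - u) * (y - x))) := by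
              have : 0 ≤ (w - u) * (y - x) := mul_nonneg hwu.le hyx
              have hv0 : 0 ≤ v i n := by linarith
              gcongr
          _ = (w - u) * (v i n * (Y i n * w ^ (v i n - 1))) * (y - x) := by ring
  · -- centres
    intro i
    obtain ⟨C, hC, hb⟩ := bounds (h i) hu huw hη (by linarith) hw
    have hH : Tendsto (fun n => exp (η * G (Y i) (v i) u n)) atTop atTop :=
      Real.tendsto_exp_atTop.comp ((G_tendsto (h i) hu).const_mul_atTop hη)
    filter_upwards [hb, hH.eventually_ge_atTop x₀] with n h1 h2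
    obtain ⟨hY, hv, -, -, -⟩ := h1
    intro z hz1 _
    refine hbase _ h2 z (le_trans ?_ hz1)
    simp only [hf]
    have : 0 ≤ u + (w - u) * 0 := by linarith
    positivity
  · -- the limit of `H / a`
    intro i
    obtain ⟨C, hC, hb⟩ := bounds (h i) hu huw hη (by linarith) hw
    have hG := G_tendsto (h i) hu
    have h1 : Tendsto (fun n => u / (w - u) * exp (-((1 - η) * G (Y i) (v i) u n))) atTop (𝓝 0) := by
      have h2 : Tendsto (fun n => exp (-((1 - η) * G (Y i) (v i) u n))) atTop (𝓝 0) :=
        Real.tendsto_exp_neg_atTop_nhds_zero.comp (hG.const_mul_atTop (by linarith))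
      have h3 := h2.const_mul (u / (w - u))
      rwa [mul_zero] at h3
    refine squeeze_zero' ?_ ?_ h1
    · filter_upwards [hb] with n h1
      obtain ⟨hY, hv, -, -, -⟩ := h1
      have hv0 : 0 < v i n := by linarith
      positivity
    · filter_upwards [hb] with n h1
      obtain ⟨hY, hv, -, -, -⟩ := h1
      exact ratio_le hY hv hu0 hwu
  · -- the radii
    intro i
    obtain ⟨C, hC, hb⟩ := bounds (h i) hu huw hη (by linarith) hw
    have hG := G_tendsto (h i) hu
    have hH : Tendsto (fun n => exp (η * G (Y i) (v i) u n)) atTop atTop :=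
      Real.tendsto_exp_atTop.comp (hG.const_mul_atTop hη)
    have hT : ∀ᶠ n in atTop, 1 ≤ c * F (exp (η * G (Y i) (v i) u n)) / 2 := by
      filter_upwards [(F_tendsto.comp hH).eventually_ge_atTop (2 / c)] with n hn
      simp only [Function.comp_apply] at hn
      rw [div_le_iff₀ hc] at hn
      linarith
    set β : ℝ := (1 - η) / t - (1 + η) with hβdef
    set K : ℝ := (2 * (u / (w - u))) ^ (1 / t) * ((w - u) / w) * exp C / log u with hK
    have hlim := (small_lim K C β hβ).comp hG
    have hlim1 := hlim.eventually (gt_mem_nhds one_pos)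
    filter_upwards [hb, hT, hlim1] with n h1 h2 h3
    obtain ⟨hY, hv, hG1, hvG, hYw⟩ := h1
    simp only [Function.comp_apply] at h3
    set g := G (Y i) (v i) u n with hg
    have hv0 : 0 < v i n := by linarith
    have hr := ratio_le (η := η) hY hv hu0 hwu
    rw [← hg] at hr
    have hb0 : 0 < (w - u) * (v i n * (Y i n * w ^ (v i n - 1))) := by positivity
    rw [le_div_iff₀ hb0]
    refine le_trans ?_ h2
    refine le_trans ?_ h3.le
    -- the two factors
    have f1 : (2 * (exp (η * g) / ((w - u) * (v i n * (Y i n * u ^ (v i n - 1)))))) ^ (1 / t) ≤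
        (2 * (u / (w - u))) ^ (1 / t) * exp (-((1 - η) / t * g)) := by
      calc (2 * (exp (η * g) / ((w - u) * (v i n * (Y i n * u ^ (v i n - 1)))))) ^ (1 / t)
          ≤ (2 * (u / (w - u) * exp (-((1 - η) * g)))) ^ (1 / t) := by
            apply Real.rpow_le_rpow (by positivity) _ (by positivity)
            linarith
        _ = ((2 * (u / (w - u))) * exp (-((1 - η) * g))) ^ (1 / t) := by
            congr 1; ring
        _ = (2 * (u / (w - u))) ^ (1 / t) * (exp (-((1 - η) * g))) ^ (1 / t) :=
            Real.mul_rpow (by positivity) (Real.exp_pos _).le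
        _ = (2 * (u / (w - u))) ^ (1 / t) * exp (-((1 - η) / t * g)) := by
            rw [← Real.exp_mul]
            congr 2
            ring
    have f2 : (w - u) * (v i n * (Y i n * w ^ (v i n - 1))) ≤
        (w - u) / w * ((g + C) / log u) * exp ((1 + η) * g + C) := by
      have e1 : w ^ (v i n - 1) = w ^ (v i n) / w := by rw [Real.rpow_sub hw0, Real.rpow_one]
      rw [e1]
      calc (w - u) * (v i n * (Y i n * (w ^ (v i n) / w)))
          = (w - u) / w * v i n * (Y i n * w ^ (v i n)) := by field_simp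
        _ ≤ (w - u) / w * ((g + C) / log u) * exp ((1 + η) * g + C) := by
            gcongr
    calc (2 * (exp (η * g) / ((w - u) * (v i n * (Y i n * u ^ (v i n - 1)))))) ^ (1 / t) *
          ((w - u) * (v i n * (Y i n * w ^ (v i n - 1))))
        ≤ ((2 * (u / (w - u))) ^ (1 / t) * exp (-((1 - η) / t * g))) *
          ((w - u) / w * ((g + C) / log u) * exp ((1 + η) * g + C)) := by
          apply mul_le_mul f1 f2 hb0.le (by positivity)
      _ = K * (g + C) * exp (-(β * g)) := by
          have e1 : exp (-((1 - η) / t * g)) * exp ((1 + η) * g + C) =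
              exp C * exp (-(β * g)) := by
            rw [← Real.exp_add, ← Real.exp_add]
            congr 1
            rw [hβdef]
            ring
          calc ((2 * (u / (w - u))) ^ (1 / t) * exp (-((1 - η) / t * g))) *
              ((w - u) / w * ((g + C) / log u) * exp ((1 + η) * g + C))
              = (2 * (u / (w - u))) ^ (1 / t) * ((w - u) / w) * ((g + C) / log u) *
                (exp (-((1 - η) / t * g)) * exp ((1 + η) * g + C)) := by ring
            _ = K * (g + C) * exp (-(β * g)) := by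
                rw [e1, hK]
                ring

end Pool.Agent.R485.RG
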