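import Pool.Agent.R331.MT.Three

set_option autoImplicit false

/-! The one-dimensional mass transference principle for countably many families at once. -/

namespace Pool.Agent.R485.RG

open MeasureTheory Filter Topology Set
open scoped ENNReal
open Pool.Agent.R331.MT

theorem contentI {s t : ℝ} (hs : 0 < s) (hst : s < t) (ht : t ≤ 1)
    (C : ℕ → ℕ → Set ℝ) (ρ : ℕ → ℕ → ℝ) (hρ : ∀ i k, 0 < ρ i k)
    (hρ0 : ∀ i, Tendsto (ρ i) atTop (𝓝 0))
    (hfull : ∀ i, ∀ᵐ x ∂(volume : Measure ℝ), x ∈ Ioo 0 1 →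
      ∃ᶠ k in atTop, ∃ c ∈ C i k, |x - c| < ρ i k)
    (A : ℕ → Set ℝ)
    (hA : {x | x ∈ Icc (0:ℝ) 1 ∧ ∀ i, ∃ᶠ k in atTop, ∃ c ∈ C i k, |x - c| < ρ i k ^ (1/t)} ⊆
      ⋃ j, A j) :
    ENNReal.ofReal (1/20) ≤ ∑' j, Metric.ediam (A j) ^ s := by
  by_contra hcon
  push Not at hcon
  have hs1 : s ≤ 1 := by linarith
  have hsmall : ∀ j, Metric.ediam (A j) < 1 := by
    intro j
    by_contra h
    push Not at h
    have h1 : Metric.ediam (A j) ^ s ≤ ∑' j, Metric.ediam (A j) ^ s := ENNReal.le_tsum j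
    have h2 : (1:ℝ≥0∞) ≤ Metric.ediam (A j) ^ s := ENNReal.one_le_rpow h hs
    have h3 := (h2.trans h1).trans_lt hcon
    rw [← ENNReal.ofReal_one] at h3
    have := (ENNReal.ofReal_lt_ofReal_iff (by norm_num)).mp h3
    norm_num at this
  have hch := fun j => single hs hs1 (A j) (hsmall j) (show (0:ℝ) < (1/2)^(j+3) by positivity)
  choose n T hT1 hT2 using hch
  have hW : W s (⋃ j, T j) < 1 := by
    calc W s (⋃ j, T j) ≤ ∑' j, W s (T j) := by
          unfold W
          rw [ENNReal.tsum_comm]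
          apply ENNReal.tsum_le_tsum
          intro p
          by_cases hp : p ∈ ⋃ j, T j
          · rw [Set.indicator_of_mem hp]
            obtain ⟨j, hj⟩ := mem_iUnion.mp hp
            refine le_trans (le_of_eq ?_) (ENNReal.le_tsum j)
            rw [Set.indicator_of_mem hj]
          · rw [Set.indicator_of_notMem hp]
            exact zero_le
      _ ≤ ∑' j, (10 * Metric.ediam (A j) ^ s + ENNReal.ofReal ((1/2)^(j+3))) :=
          ENNReal.tsum_le_tsum hT2
      _ = 10 * ∑' j, Metric.ediam (A j) ^ s + ∑' j : ℕ, ENNReal.ofReal ((1/2)^(j+3)) := by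
          rw [ENNReal.tsum_add, ENNReal.tsum_mul_left]
      _ ≤ 10 * ENNReal.ofReal (1/20) + ENNReal.ofReal (1/4) := by
          gcongr
          have hs2 : Summable (fun n : ℕ => ((1:ℝ)/2)^(n+3)) :=
            (summable_nat_add_iff 3).mpr summable_geometric_two
          rw [← ENNReal.ofReal_tsum_of_nonneg (fun n => by positivity) hs2]
          apply ENNReal.ofReal_le_ofReal
          have e : ∀ n : ℕ, ((1:ℝ)/2)^(n+3) = (1/8) * ((1:ℝ)/2)^n := by
            intro n
            rw [pow_add]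
            ring
          simp_rw [e]
          rw [tsum_mul_left, tsum_geometric_two]
          norm_num
      _ = ENNReal.ofReal (3/4) := by
          have : (10:ℝ≥0∞) = ENNReal.ofReal 10 := by norm_num
          rw [this, ← ENNReal.ofReal_mul (by norm_num),
            ← ENNReal.ofReal_add (by norm_num) (by norm_num)]
          norm_num
      _ < 1 := by
          rw [← ENNReal.ofReal_one]
          exact (ENNReal.ofReal_lt_ofReal_iff (by norm_num)).mpr (by norm_num)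
  set U : ℕ → Set ℝ := fun n => {y | ∃ k, (Nat.unpair n).2 ≤ k ∧
    ∃ c ∈ C (Nat.unpair n).1 k, |y - c| < ρ (Nat.unpair n).1 k ^ (1/t)} with hU
  have hopen : ∀ n, IsOpen (U n) := by
    intro n
    have e : U n = ⋃ k, ⋃ (_ : (Nat.unpair n).2 ≤ k), ⋃ c ∈ C (Nat.unpair n).1 k,
        Metric.ball c (ρ (Nat.unpair n).1 k ^ (1/t)) := by
      ext y
      simp only [hU, mem_iUnion, Metric.mem_ball, Real.dist_eq]
      constructor
      · rintro ⟨k, hk, c, hc, hy⟩
        exact ⟨k, hk, c, hc, hy⟩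
      · rintro ⟨k, hk, c, hc, hy⟩
        exact ⟨k, hk, c, hc, hy⟩
    rw [e]
    exact isOpen_iUnion fun k => isOpen_iUnion fun _ => isOpen_iUnion fun c =>
      isOpen_iUnion fun _ => Metric.isOpen_ball
  obtain ⟨x, hx01, hxU, hxL⟩ := game U hopen
    (fun n => full_of_ae hs hst ht (C (Nat.unpair n).1) (ρ (Nat.unpair n).1)
      (hρ (Nat.unpair n).1) (hρ0 (Nat.unpair n).1) (hfull (Nat.unpair n).1) (Nat.unpair n).2) hW
  have hxE : x ∈ {x | x ∈ Icc (0:ℝ) 1 ∧
      ∀ i, ∃ᶠ k in atTop, ∃ c ∈ C i k, |x - c| < ρ i k ^ (1/t)} := by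
    refine ⟨hx01, fun i => ?_⟩
    rw [frequently_atTop]
    intro m
    have h1 := hxU (Nat.pair i m)
    simp only [hU, Nat.unpair_pair, Set.mem_ofPred_eq] at h1
    obtain ⟨k, hk, h⟩ := h1
    exact ⟨k, hk, h⟩
  obtain ⟨j, hj⟩ := mem_iUnion.mp (hA hxE)
  obtain ⟨L, hL1, hL2, hL3, hL4⟩ := hxL (n j + 1)
  set y : ℝ := (L.2:ℝ) / 2^L.1 with hy
  have hyL : y ∈ D L := D_nonempty L
  have hy0 : 0 ≤ y := by positivity
  have hxy : |y - x| < 1 / 2^(n j) := by
    have h1 := hL2.1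
    have h2 := hL2.2
    rw [add_div] at h2
    have h3 : (1:ℝ) / 2^L.1 ≤ 1/2^(n j + 1) := by
      apply one_div_le_one_div_of_le (by positivity)
      exact pow_le_pow_right₀ (by norm_num) hL1
    have h4 : (1:ℝ)/2^(n j + 1) < 1/2^(n j) := by
      apply one_div_lt_one_div_of_lt (by positivity)
      exact pow_lt_pow_right₀ (by norm_num) (by omega)
    rw [abs_lt]
    constructor <;> linarith
  have hmem := hT1 j x hj hx01 y hy0 hxy
  refine hL4 _ (mem_iUnion.mpr ⟨j, hmem⟩) ?_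
  exact D_nested hyL (mem_D_idx hy0 _) (by show n j ≤ L.1; omega)

/-- **Mass transference, countably many families.** -/
theorem dimI {t : ℝ} (ht0 : 0 < t) (ht : t ≤ 1)
    (C : ℕ → ℕ → Set ℝ) (ρ : ℕ → ℕ → ℝ) (hρ : ∀ i k, 0 < ρ i k)
    (hρ0 : ∀ i, Tendsto (ρ i) atTop (𝓝 0))
    (hfull : ∀ i, ∀ᵐ x ∂(volume : Measure ℝ), x ∈ Ioo 0 1 →
      ∃ᶠ k in atTop, ∃ c ∈ C i k, |x - c| < ρ i k) :
    ENNReal.ofReal t ≤ dimH {x | x ∈ Icc (0:ℝ) 1 ∧
      ∀ i, ∃ᶠ k in atTop, ∃ c ∈ C i k, |x - c| < ρ i k ^ (1/t)} := by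
  set E' : Set ℝ := {x | x ∈ Icc (0:ℝ) 1 ∧
      ∀ i, ∃ᶠ k in atTop, ∃ c ∈ C i k, |x - c| < ρ i k ^ (1/t)} with hE'
  have main : ∀ s : ℝ, 0 < s → s < t → ENNReal.ofReal s ≤ dimH E' := by
    intro s hs hst
    have key : ENNReal.ofReal (1 / 20) ≤ Measure.hausdorffMeasure s E' := by
      rw [Measure.hausdorffMeasure_apply]
      refine le_iSup₂_of_le 1 one_pos ?_
      refine le_iInf fun A => le_iInf fun hcov => le_iInf fun _ => ?_
      refine (contentI hs hst ht C ρ hρ hρ0 hfull A hcov).trans ?_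
      refine ENNReal.tsum_le_tsum fun n => ?_
      by_cases hne : (A n).Nonempty
      · rw [iSup_pos hne]
      · have : A n = ∅ := not_nonempty_iff_eq_empty.mp hne
        rw [iSup_neg hne]
        simp [this, hs]
    have h3 := le_dimH_of_hausdorffMeasure_ne_zero (s := E') (d := s.toNNReal) (by
      rw [Real.coe_toNNReal _ hs.le]
      intro h0
      rw [h0] at key
      simp at key)
    exact h3
  refine le_of_forall_lt fun b hb => ?_
  have hbt : b ≠ ⊤ := ne_top_of_lt hb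
  set r : ℝ := b.toReal with hr
  have hbr : b = ENNReal.ofReal r := (ENNReal.ofReal_toReal hbt).symm
  have hr0 : 0 ≤ r := ENNReal.toReal_nonneg
  rw [hbr] at hb ⊢
  have hrt : r < t := (ENNReal.ofReal_lt_ofReal_iff ht0).1 hb
  refine lt_of_lt_of_le ?_ (main ((r + t) / 2) (by linarith) (by linarith))
  exact (ENNReal.ofReal_lt_ofReal_iff (by linarith)).2 (by linarith)

end Pool.Agent.R485.RG
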